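import Mathlib

/-! Robust Talagrand inequality on the cube (Boolean functions), by induction over a finite set of
coordinates.  The cube is the powerset of a finset. -/

namespace CT

open Finset

/-- `x (1 - x)`. -/
noncomputable def JJ (x : ℝ) : ℝ := x * (1 - x)

/-- average over the subsets of `s`. -/
noncomputable def avgS {ι : Type*} [DecidableEq ι] (s : Finset ι) (F : Finset ι → ℝ) : ℝ :=
  (∑ T ∈ s.powerset, F T) / 2 ^ s.card

section
variable {ι : Type*} [DecidableEq ι]

lemma avgS_empty (F : Finset ι → ℝ) : avgS ∅ F = F ∅ := by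
  simp [avgS]

lemma avgS_insert {a : ι} {s : Finset ι} (ha : a ∉ s) (F : Finset ι → ℝ) :
    avgS (insert a s) F = (avgS s F + avgS s (fun T => F (insert a T))) / 2 := by
  unfold avgS
  rw [Finset.sum_powerset_insert ha, Finset.card_insert_of_notMem ha, pow_succ]
  field_simp

lemma avgS_mono {s : Finset ι} {F G : Finset ι → ℝ} (h : ∀ T, F T ≤ G T) :
    avgS s F ≤ avgS s G := by
  unfold avgS
  gcongr with T _
  exact h T

lemma avgS_add (s : Finset ι) (F G : Finset ι → ℝ) :
    avgS s (fun T => F T + G T) = avgS s F + avgS s G := by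
  unfold avgS
  rw [Finset.sum_add_distrib, add_div]

lemma avgS_sub (s : Finset ι) (F G : Finset ι → ℝ) :
    avgS s (fun T => F T - G T) = avgS s F - avgS s G := by
  unfold avgS
  rw [Finset.sum_sub_distrib, sub_div]

lemma avgS_mul (s : Finset ι) (c : ℝ) (F : Finset ι → ℝ) :
    avgS s (fun T => c * F T) = c * avgS s F := by
  unfold avgS
  rw [← Finset.mul_sum, mul_div_assoc]

lemma avgS_const (s : Finset ι) (c : ℝ) : avgS s (fun _ => c) = c := by
  unfold avgS
  rw [Finset.sum_const, Finset.card_powerset]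
  simp

lemma avgS_sum {κ : Type*} (s : Finset ι) (u : Finset κ) (F : κ → Finset ι → ℝ) :
    avgS s (fun T => ∑ k ∈ u, F k T) = ∑ k ∈ u, avgS s (F k) := by
  unfold avgS
  rw [Finset.sum_comm, Finset.sum_div]

lemma avgS_abs_le (s : Finset ι) (F : Finset ι → ℝ) :
    |avgS s F| ≤ avgS s (fun T => |F T|) := by
  unfold avgS
  rw [abs_div, abs_of_pos (by positivity : (0:ℝ) < 2 ^ s.card)]
  gcongr
  exact Finset.abs_sum_le_sum_abs _ _

lemma avgS_nonneg {s : Finset ι} {F : Finset ι → ℝ} (h : ∀ T, 0 ≤ F T) : 0 ≤ avgS s F := by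
  have := avgS_mono (s := s) (F := fun _ => 0) (G := F) h
  rwa [avgS_const] at this

lemma cs_ineq {α β U t : ℝ} (hU : 0 ≤ U) :
    α * √U + β * t ≤ √(α ^ 2 + β ^ 2) * √(U + t ^ 2) := by
  rw [← Real.sqrt_mul (by positivity)]
  apply Real.le_sqrt_of_sq_le
  have h1 : √U ^ 2 = U := Real.sq_sqrt hU
  nlinarith [sq_nonneg (α * t - β * √U)]

/-- Robust Talagrand inequality for Boolean functions on the cube. -/
theorem talagrand_cube (s : Finset ι) : ∀ (h : Finset ι → ℝ) (t : ι → Finset ι → ℝ),
    (∀ T, h T = 0 ∨ h T = 1) → (∀ i T, 0 ≤ t i T) →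
    (∀ i T, i ∉ T → |h T - h (insert i T)| ≤ t i T + t i (insert i T)) →
    JJ (avgS s h) ≤ avgS s (fun T => √((∑ i ∈ s, (t i T) ^ 2) / 2)) := by
  induction s using Finset.induction_on with
  | empty =>
    intro h t hh _ _
    rw [avgS_empty, avgS_empty]
    rcases hh ∅ with h0 | h0 <;> simp [JJ, h0]
  | insert a s ha ih =>
    intro h t hh ht hht
    have ih0 := ih h t hh ht hht
    have ih1 := ih (fun T => h (insert a T)) (fun i T => t i (insert a T))
      (fun T => hh _) (fun i T => ht _ _) (by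
        intro i T hi
        by_cases hia : i = a
        · subst hia
          simp only [Finset.insert_idem, sub_self, abs_zero]
          exact add_nonneg (ht _ _) (ht _ _)
        · have h1 : i ∉ insert a T := by simp [hia, hi]
          have h2 := hht i (insert a T) h1
          rw [Finset.insert_comm a i T]
          exact h2)
    rw [avgS_insert ha, avgS_insert ha]
    set a0 := avgS s h with ha0
    set a1 := avgS s (fun T => h (insert a T)) with ha1
    set U0 : Finset ι → ℝ := fun T => (∑ i ∈ s, (t i T) ^ 2) / 2 with hU0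
    set U1 : Finset ι → ℝ := fun T => (∑ i ∈ s, (t i (insert a T)) ^ 2) / 2 with hU1
    have hU0n : ∀ T, 0 ≤ U0 T := fun T => by positivity
    have hU1n : ∀ T, 0 ≤ U1 T := fun T => by positivity
    set α : ℝ := (JJ a0 + JJ a1) / 2 with hα
    set β : ℝ := |a0 - a1| / (2 * √2) with hβ
    set r : ℝ := √(α ^ 2 + β ^ 2) with hr
    have hs2 : (√2 : ℝ) ^ 2 = 2 := Real.sq_sqrt (by norm_num)
    have hs2p : (0:ℝ) < √2 := Real.sqrt_pos.mpr (by norm_num)
    -- rewrite the sums over insert
    have e0 : ∀ T, √((∑ i ∈ insert a s, (t i T) ^ 2) / 2) = √(U0 T + (t a T / √2) ^ 2) := by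
      intro T
      rw [Finset.sum_insert ha, hU0]
      congr 1
      simp only
      rw [div_pow, hs2]
      ring
    have e1 : ∀ T, √((∑ i ∈ insert a s, (t i (insert a T)) ^ 2) / 2)
        = √(U1 T + (t a (insert a T) / √2) ^ 2) := by
      intro T
      rw [Finset.sum_insert ha, hU1]
      congr 1
      simp only
      rw [div_pow, hs2]
      ring
    have ih0' : JJ a0 ≤ avgS s (fun T => √(U0 T)) := ih0
    have ih1' : JJ a1 ≤ avgS s (fun T => √(U1 T)) := ih1
    set S : ℝ := (avgS s (fun T => √((∑ i ∈ insert a s, (t i T) ^ 2) / 2)) +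
      avgS s (fun T => √((∑ i ∈ insert a s, (t i (insert a T)) ^ 2) / 2))) / 2 with hS
    have hJ : ∀ x : ℝ, x ≤ 1 → 0 ≤ x → 0 ≤ JJ x := fun x h1 h0 => mul_nonneg h0 (by linarith)
    have hrange : ∀ g : Finset ι → ℝ, (∀ T, g T = 0 ∨ g T = 1) → 0 ≤ avgS s g ∧ avgS s g ≤ 1 := by
      intro g hg
      constructor
      · apply avgS_nonneg
        intro T
        rcases hg T with h | h <;> rw [h]
        norm_num
      · rw [← avgS_const s (1:ℝ)]
        apply avgS_mono
        intro T
        rcases hg T with h | h <;> rw [h]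
        norm_num
    obtain ⟨ha0n, ha0l⟩ := hrange h hh
    obtain ⟨ha1n, ha1l⟩ := hrange (fun T => h (insert a T)) (fun T => hh _)
    have hαn : 0 ≤ α := by
      have := hJ a0 ha0l ha0n
      have := hJ a1 ha1l ha1n
      rw [hα]; linarith
    have hβn : 0 ≤ β := by positivity
    have hrn : 0 ≤ r := Real.sqrt_nonneg _
    have hr2 : r ^ 2 = α ^ 2 + β ^ 2 := Real.sq_sqrt (by positivity)
    -- difference bound
    have hdiff : |a0 - a1| ≤ avgS s (fun T => t a T) + avgS s (fun T => t a (insert a T)) := by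
      rw [ha0, ha1, ← avgS_sub, ← avgS_add]
      refine (avgS_abs_le _ _).trans ?_
      unfold avgS
      gcongr with T hT
      rw [Finset.mem_powerset] at hT
      exact hht a T (fun h => ha (hT h))
    have hkey : r ^ 2 ≤ r * S := by
      have k0 : avgS s (fun T => α * √(U0 T) + β * (t a T / √2)) ≤
          avgS s (fun T => r * √((∑ i ∈ insert a s, (t i T) ^ 2) / 2)) := by
        apply avgS_mono
        intro T
        rw [e0]
        exact cs_ineq (hU0n T)
      have k1 : avgS s (fun T => α * √(U1 T) + β * (t a (insert a T) / √2)) ≤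
          avgS s (fun T => r * √((∑ i ∈ insert a s, (t i (insert a T)) ^ 2) / 2)) := by
        apply avgS_mono
        intro T
        rw [e1]
        exact cs_ineq (hU1n T)
      rw [avgS_mul] at k0 k1
      have q0 : avgS s (fun T => α * √(U0 T) + β * (t a T / √2)) =
          α * avgS s (fun T => √(U0 T)) + (β / √2) * avgS s (fun T => t a T) := by
        rw [← avgS_mul, ← avgS_mul, ← avgS_add]
        congr 1
        funext T
        ring
      have q1 : avgS s (fun T => α * √(U1 T) + β * (t a (insert a T) / √2)) =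
          α * avgS s (fun T => √(U1 T)) + (β / √2) * avgS s (fun T => t a (insert a T)) := by
        rw [← avgS_mul, ← avgS_mul, ← avgS_add]
        congr 1
        funext T
        ring
      rw [q0] at k0
      rw [q1] at k1
      have m0 : α * JJ a0 ≤ α * avgS s (fun T => √(U0 T)) := mul_le_mul_of_nonneg_left ih0' hαn
      have m1 : α * JJ a1 ≤ α * avgS s (fun T => √(U1 T)) := mul_le_mul_of_nonneg_left ih1' hαn
      have m2 : (β / √2) * |a0 - a1| ≤ (β / √2) *
          (avgS s (fun T => t a T) + avgS s (fun T => t a (insert a T))) :=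
        mul_le_mul_of_nonneg_left hdiff (by positivity)
      have m3 : (β / √2) * |a0 - a1| = 2 * β ^ 2 := by
        rw [hβ]
        field_simp
      have m4 : α * (JJ a0 + JJ a1) = 2 * α ^ 2 := by
        rw [hα]; ring
      rw [hr2, hS]
      nlinarith
    have hSn : 0 ≤ S := by
      rw [hS]
      have : 0 ≤ avgS s (fun T => √((∑ i ∈ insert a s, (t i T) ^ 2) / 2)) :=
        avgS_nonneg (fun T => Real.sqrt_nonneg _)
      have : 0 ≤ avgS s (fun T => √((∑ i ∈ insert a s, (t i (insert a T)) ^ 2) / 2)) :=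
        avgS_nonneg (fun T => Real.sqrt_nonneg _)
      linarith
    have hrS : r ≤ S := by
      rcases hrn.lt_or_eq with hpos | h0
      · have : r * r ≤ r * S := by nlinarith
        exact le_of_mul_le_mul_left this hpos
      · rw [← h0]; exact hSn
    refine le_trans ?_ hrS
    apply Real.le_sqrt_of_sq_le
    have hβ2 : β ^ 2 = (a0 - a1) ^ 2 / 8 := by
      rw [hβ, div_pow, sq_abs, mul_pow, hs2]
      norm_num
    rw [hβ2, hα]
    unfold JJ
    -- J(mid)^2 <= avg^2 + (a-b)^2/8
    have h1 : (a0 + a1) / 2 * (1 - (a0 + a1) / 2) =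
        (a0 * (1 - a0) + a1 * (1 - a1)) / 2 + (a0 - a1) ^ 2 / 4 := by ring
    rw [h1]
    have h2 : (a0 * (1 - a0) + a1 * (1 - a1)) / 2 + (a0 - a1) ^ 2 / 4 ≤ 1 / 4 := by
      rw [← h1]
      nlinarith [sq_nonneg ((a0 + a1) / 2 - 1 / 2)]
    have h3 : (a0 * (1 - a0) + a1 * (1 - a1)) / 2 ≤ 1 / 4 := by
      nlinarith [sq_nonneg (a0 - 1 / 2), sq_nonneg (a1 - 1 / 2)]
    nlinarith [sq_nonneg (a0 - a1), mul_nonneg (sq_nonneg (a0 - a1)) (sub_nonneg.mpr h2),
      mul_nonneg (sq_nonneg (a0 - a1)) (sub_nonneg.mpr h3)]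

end

end CT
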