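import Pool.Agent.Helper24.CT.Proj

/-! Hypergrids: cones given by relations, matchings, closure under compare-exchange. -/

namespace CT

open Finset

/-- A relation on `ℕ` which is a matching, lower point first. -/
structure IsMatch (M : ℕ → ℕ → Prop) : Prop where
  lt : ∀ {a b}, M a b → a < b
  right : ∀ {a b c}, M a b → M a c → b = c
  left : ∀ {a b c}, M a c → M b c → a = b
  disj : ∀ {a b c}, M a b → ¬ M b c

section sig
variable {n : ℕ}

open Classical in
/-- partner map of a matching. -/
noncomputable def sig (M : ℕ → ℕ → Prop) (a : Fin n) : Fin n :=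
  if h : ∃ b : Fin n, M a b then h.choose
  else if h : ∃ b : Fin n, M b a then h.choose
  else a

variable {M : ℕ → ℕ → Prop} (hM : IsMatch M)
include hM

lemma sig_lower {a b : Fin n} (h : M a b) : sig M a = b := by
  have hex : ∃ b : Fin n, M a b := ⟨b, h⟩
  unfold sig
  rw [dif_pos hex]
  exact Fin.ext (hM.right hex.choose_spec h)

lemma sig_upper {a b : Fin n} (h : M a b) : sig M b = a := by
  have hno : ¬ ∃ c : Fin n, M b c := fun ⟨c, hc⟩ => hM.disj h hc
  have hex : ∃ a : Fin n, M a b := ⟨a, h⟩
  unfold sig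
  rw [dif_neg hno, dif_pos hex]
  exact Fin.ext (hM.left hex.choose_spec h)

omit hM in
lemma sig_fix {a : Fin n} (h1 : ∀ b : Fin n, ¬ M a b) (h2 : ∀ b : Fin n, ¬ M b a) :
    sig M a = a := by
  unfold sig
  rw [dif_neg (by push Not; exact h1), dif_neg (by push Not; exact h2)]

omit hM in
lemma sig_cases (M : ℕ → ℕ → Prop) (a : Fin n) :
    (∃ b : Fin n, M a b) ∨ (∃ b : Fin n, M b a) ∨
      ((∀ b : Fin n, ¬ M a b) ∧ (∀ b : Fin n, ¬ M b a)) := by
  by_cases h1 : ∃ b : Fin n, M a b
  · exact Or.inl h1
  · by_cases h2 : ∃ b : Fin n, M b a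
    · exact Or.inr (Or.inl h2)
    · push Not at h1 h2
      exact Or.inr (Or.inr ⟨h1, h2⟩)

lemma sig_sig (a : Fin n) : sig M (sig M a) = a := by
  rcases sig_cases M a with ⟨b, hb⟩ | ⟨b, hb⟩ | ⟨h1, h2⟩
  · rw [sig_lower hM hb, sig_upper hM hb]
  · rw [sig_upper hM hb, sig_lower hM hb]
  · rw [sig_fix h1 h2, sig_fix h1 h2]

lemma sig_lt_iff (a b : Fin n) : (a < b ∧ sig M a = b) ↔ M a b := by
  constructor
  · rintro ⟨hlt, h⟩
    rcases sig_cases M a with ⟨c, hc⟩ | ⟨c, hc⟩ | ⟨h1, h2⟩
    · rw [sig_lower hM hc] at h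
      rwa [← h]
    · rw [sig_upper hM hc] at h
      have := hM.lt hc
      rw [h] at this
      exact absurd hlt (not_lt.mpr (Fin.le_iff_val_le_val.mpr this.le))
    · rw [sig_fix h1 h2] at h
      exact absurd hlt (h ▸ lt_irrefl _)
  · intro h
    exact ⟨Fin.lt_def.mpr (hM.lt h), sig_lower hM h⟩

omit hM in
/-- one-dimensional compare-exchange -/
noncomputable def S1 (M : ℕ → ℕ → Prop) (q : Fin n → ℝ) (a : Fin n) : ℝ :=
  if sig M a < a then max (q a) (q (sig M a)) else min (q a) (q (sig M a))

lemma S1_lower {a b : Fin n} (h : M a b) (q : Fin n → ℝ) : S1 M q a = min (q a) (q b) := by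
  unfold S1
  rw [sig_lower hM h, if_neg]
  exact not_lt.mpr (Fin.le_iff_val_le_val.mpr (hM.lt h).le)

lemma S1_upper {a b : Fin n} (h : M a b) (q : Fin n → ℝ) : S1 M q b = max (q b) (q a) := by
  unfold S1
  rw [sig_upper hM h, if_pos]
  exact Fin.lt_def.mpr (hM.lt h)

omit hM in
lemma S1_fix {a : Fin n} (h1 : ∀ b : Fin n, ¬ M a b) (h2 : ∀ b : Fin n, ¬ M b a) (q : Fin n → ℝ) :
    S1 M q a = q a := by
  unfold S1
  rw [sig_fix h1 h2]
  simp

end sig

section grid
variable {ι : Type*} [DecidableEq ι] {n : ℕ}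

/-- the system of involutions on the grid given by a matching. -/
noncomputable def gsys (ι : Type*) [DecidableEq ι] (n : ℕ) {M : ℕ → ℕ → Prop} (hM : IsMatch M) :
    Sys (ι → Fin n) ι where
  fl i x := Function.update x i (sig M (x i))
  up i x := decide (sig M (x i) < x i)
  inv i x := by
    simp [sig_sig hM]
  comm i j x := by
    by_cases hij : i = j
    · rw [hij]
    · rw [Function.update_comm hij]
      simp [Function.update_of_ne hij, Function.update_of_ne (Ne.symm hij)]
  up_ne i j x hij := by
    simp [Function.update_of_ne (Ne.symm hij)]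
  up_fl i x hx := by
    have hne : sig M (x i) ≠ x i := by
      intro h
      apply hx
      rw [h]
      exact Function.update_eq_self i x
    simp only [Function.update_self, sig_sig hM]
    rcases lt_or_gt_of_ne hne with h | h
    · simp [h, h.le]
    · simp [h, h.le]

/-- the cone of functions monotone for the relation `R` (in every direction). -/
def Cn (ι : Type*) [DecidableEq ι] (n : ℕ) (R : ℕ → ℕ → Prop) :
    Set (EuclideanSpace ℝ (ι → Fin n)) :=
  {p | ∀ (i : ι) (x : ι → Fin n) (v : Fin n), R (x i) v → p x ≤ p (Function.update x i v)}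

lemma mem_Cn_iff {M : ℕ → ℕ → Prop} (hM : IsMatch M) (p : EuclideanSpace ℝ (ι → Fin n)) :
    p ∈ Cn ι n M ↔ ∀ i, (gsys ι n hM).MonI i p := by
  constructor
  · intro h i x hx
    have hx' : ¬ (sig M (x i) < x i) := by simpa [gsys] using hx
    rw [not_lt] at hx'
    rcases hx'.lt_or_eq with h1 | h1
    · have h2 : M (x i) (sig M (x i)) := (sig_lt_iff hM _ _).mp ⟨h1, rfl⟩
      exact h i x _ h2
    · have h2 : (gsys ι n hM).fl i x = x := by
        show Function.update x i (sig M (x i)) = x
        rw [← h1]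
        exact Function.update_eq_self i x
      rw [h2]
  · intro h i x v hv
    have h1 := (sig_lt_iff hM _ _).mpr hv
    have h2 := h i x (by
      simp only [gsys, decide_eq_false_iff_not, not_lt]
      rw [h1.2]
      exact h1.1.le)
    have h3 : (gsys ι n hM).fl i x = Function.update x i v := by
      show Function.update x i (sig M (x i)) = _
      rw [h1.2]
    rwa [h3] at h2

lemma Cn_convex (R : ℕ → ℕ → Prop) : Convex ℝ (Cn ι n R) := by
  intro p hp q hq a b ha hb _ i x v hv
  have h1 := hp i x v hv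
  have h2 := hq i x v hv
  simp only [PiLp.add_apply, PiLp.smul_apply, smul_eq_mul]
  have h3 := mul_le_mul_of_nonneg_left h1 ha
  have h4 := mul_le_mul_of_nonneg_left h2 hb
  linarith

lemma Cn_closed [Fintype ι] (R : ℕ → ℕ → Prop) : IsClosed (Cn ι n R) := by
  have : Cn ι n R = ⋂ (i : ι), ⋂ (x : ι → Fin n), ⋂ (v : Fin n), ⋂ (_ : R (x i) v),
      {p : EuclideanSpace ℝ (ι → Fin n) | p x ≤ p (Function.update x i v)} := by
    ext p
    simp [Cn]
  rw [this]
  refine isClosed_iInter fun i => isClosed_iInter fun x => isClosed_iInter fun v =>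
    isClosed_iInter fun _ => isClosed_le ?_ ?_
  · fun_prop
  · fun_prop

/-- one-dimensional closure: `R` is preserved by the compare-exchange along `M`, for functions
satisfying `R` and `R'`. -/
def Clo (n : ℕ) (R R' M : ℕ → ℕ → Prop) : Prop :=
  ∀ q : Fin n → ℝ, (∀ a b : Fin n, R a b → q a ≤ q b) → (∀ a b : Fin n, R' a b → q a ≤ q b) →
    ∀ a b : Fin n, R a b → S1 M q a ≤ S1 M q b

lemma srt_mem_Cn {M : ℕ → ℕ → Prop} (hM : IsMatch M) {R R' : ℕ → ℕ → Prop}
    (hcl : Clo n R R' M) {p : EuclideanSpace ℝ (ι → Fin n)} (hp : p ∈ Cn ι n R)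
    (hp' : p ∈ Cn ι n R') (i : ι) :
    WithLp.toLp 2 ((gsys ι n hM).srt i p) ∈ Cn ι n R := by
  intro j x v hv
  show (gsys ι n hM).srt i p x ≤ (gsys ι n hM).srt i p (Function.update x j v)
  by_cases hij : j = i
  · subst hij
    set q : Fin n → ℝ := fun a => p (Function.update x j a) with hq
    have h1 := hcl q (fun a b hab => by
        have := hp j (Function.update x j a) b (by simpa using hab)
        simpa using this) (fun a b hab => by
        have := hp' j (Function.update x j a) b (by simpa using hab)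
        simpa using this) (x j) v hv
    have e : ∀ y : ι → Fin n, ∀ a, y = Function.update x j a →
        (gsys ι n hM).srt j p y = S1 M q a := by
      intro y a hy
      subst hy
      unfold Sys.srt S1 gsys
      simp [hq]
    rw [e x (x j) (Function.update_eq_self j x).symm, e _ v rfl]
    exact h1
  · have e1 : (Function.update x j v) i = x i := Function.update_of_ne (Ne.symm hij) _ _
    unfold Sys.srt gsys
    simp only [e1]
    have h1 : p x ≤ p (Function.update x j v) := hp j x v hv
    have h2 : p (Function.update x i (sig M (x i))) ≤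
        p (Function.update (Function.update x j v) i (sig M (x i))) := by
      rw [Function.update_comm hij]
      apply hp
      rw [Function.update_of_ne hij]
      exact hv
    split_ifs
    · exact max_le_max h1 h2
    · exact min_le_min h1 h2

/-- The projection onto `Cn R` preserves `Cn M` if `R` is preserved by the `M`-exchange. -/
theorem proj_pres [Fintype ι] {M : ℕ → ℕ → Prop} (hM : IsMatch M) {R R' : ℕ → ℕ → Prop}
    (hcl : Clo n R R' M) {f p : EuclideanSpace ℝ (ι → Fin n)} (hp : IsProj (Cn ι n R) f p)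
    (hp' : p ∈ Cn ι n R') (hf : f ∈ Cn ι n M) : p ∈ Cn ι n M := by
  rw [mem_Cn_iff hM] at hf ⊢
  intro i
  exact proj_mono (gsys ι n hM) i (Cn_convex R) hp (hf i) (srt_mem_Cn hM hcl hp.1 hp' i)

end grid

end CT
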