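import Pool.Agent.Helper24.CT.Vari2

/-! Telescoping over nested random subsets of directions; the coloured inequality for one
product of matchings. -/

namespace CT

open Finset

section avgmore
variable {ι : Type*} [DecidableEq ι]

lemma avgS_sqrt_le (s : Finset ι) {F : Finset ι → ℝ} (hF : ∀ T, 0 ≤ F T) :
    avgS s (fun T => √(F T)) ≤ √(avgS s F) := by
  apply Real.le_sqrt_of_sq_le
  unfold avgS
  have h1 := sq_sum_le_card_mul_sum_sq (s := s.powerset) (f := fun T => √(F T))
  rw [Finset.card_powerset] at h1
  have h2 : ∑ T ∈ s.powerset, (√(F T)) ^ 2 = ∑ T ∈ s.powerset, F T :=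
    Finset.sum_congr rfl (fun T _ => Real.sq_sqrt (hF T))
  rw [h2] at h1
  push_cast at h1
  rw [div_pow, div_le_div_iff₀ (by positivity) (by positivity)]
  nlinarith [pow_pos (by norm_num : (0:ℝ) < 2) s.card]

lemma exists_le_avgS (s : Finset ι) (F : Finset ι → ℝ) : ∃ T, F T ≤ avgS s F := by
  by_contra hcon
  push Not at hcon
  have h1 : ∑ T ∈ s.powerset, avgS s F < ∑ T ∈ s.powerset, F T :=
    Finset.sum_lt_sum_of_nonempty ⟨∅, by simp⟩ (fun T _ => hcon T)
  rw [Finset.sum_const, Finset.card_powerset, nsmul_eq_mul] at h1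
  have h2 : avgS s F * 2 ^ s.card = ∑ T ∈ s.powerset, F T := by
    unfold avgS
    field_simp
  push_cast at h1
  linarith

variable [Fintype ι]

lemma avgS_ind (i : ι) (c : ℝ) : avgS univ (fun b : Finset ι => if i ∈ b then c else 0) = c / 2 := by
  rw [avgS_split i]
  have : (fun T : Finset ι => ((if i ∈ T.erase i then c else 0) +
      (if i ∈ insert i T then c else 0)) / 2) = fun _ => c / 2 := by
    funext T
    simp
  rw [this, avgS_const]

lemma avgS_length (J : List ι) :
    avgS univ (fun b : Finset ι => ((J.filter (fun j => decide (j ∈ b))).length : ℝ)) =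
      J.length / 2 := by
  induction J with
  | nil => simp [avgS_const]
  | cons j J ih =>
    have h1 : (fun b : Finset ι => (((j :: J).filter (fun j => decide (j ∈ b))).length : ℝ)) =
        fun b => (if j ∈ b then (1:ℝ) else 0) +
          ((J.filter (fun j => decide (j ∈ b))).length : ℝ) := by
      funext b
      by_cases hj : j ∈ b
      · rw [List.filter_cons_of_pos (by simpa using hj), if_pos hj, List.length_cons]
        push_cast
        ring
      · rw [List.filter_cons_of_neg (by simpa using hj), if_neg hj]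
        ring
    rw [h1, avgS_add, ih, avgS_ind, List.length_cons]
    push_cast
    ring

lemma avgS_comm (F : Finset ι → Finset ι → ℝ) :
    avgS univ (fun a => avgS univ (fun b => F a b)) =
      avgS univ (fun b => avgS univ (fun a => F a b)) := by
  unfold avgS
  rw [← Finset.sum_div, ← Finset.sum_div, Finset.sum_comm]

/-- average over sequences of `R` subsets -/
noncomputable def avgB : ℕ → (List (Finset ι) → ℝ) → ℝ
  | 0, F => F []
  | R + 1, F => avgS univ (fun b => avgB R (fun B => F (b :: B)))

lemma avgB_mono (R : ℕ) : ∀ {F G : List (Finset ι) → ℝ}, (∀ B, F B ≤ G B) →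
    avgB R F ≤ avgB R G := by
  induction R with
  | zero => intro F G h; exact h []
  | succ R ih =>
    intro F G h
    exact avgS_mono (fun b => ih (fun B => h _))

lemma avgB_add (R : ℕ) : ∀ (F G : List (Finset ι) → ℝ),
    avgB R (fun B => F B + G B) = avgB R F + avgB R G := by
  induction R with
  | zero => intro F G; rfl
  | succ R ih =>
    intro F G
    unfold avgB
    rw [← avgS_add]
    congr 1
    funext b
    rw [ih]

lemma avgB_const (R : ℕ) (c : ℝ) : avgB R (fun _ : List (Finset ι) => c) = c := by
  induction R with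
  | zero => rfl
  | succ R ih =>
    have : avgB (R + 1) (fun _ : List (Finset ι) => c) =
      avgS univ (fun _ : Finset ι => avgB R (fun _ : List (Finset ι) => c)) := rfl
    rw [this, ih, avgS_const]

lemma avgB_comm (R : ℕ) : ∀ (F : Finset ι → List (Finset ι) → ℝ),
    avgS univ (fun b => avgB R (fun B => F b B)) =
      avgB R (fun B => avgS univ (fun b => F b B)) := by
  induction R with
  | zero => intro F; rfl
  | succ R ih =>
    intro F
    unfold avgB
    rw [avgS_comm]
    congr 1
    funext b
    rw [ih]

lemma exists_le_avgB (R : ℕ) : ∀ (F : List (Finset ι) → ℝ), ∃ B, F B ≤ avgB R F := by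
  induction R with
  | zero => intro F; exact ⟨[], le_rfl⟩
  | succ R ih =>
    intro F
    obtain ⟨b, hb⟩ := exists_le_avgS univ (fun b => avgB R (fun B => F (b :: B)))
    obtain ⟨B, hB⟩ := ih (fun B => F (b :: B))
    exact ⟨b :: B, hB.trans hb⟩

/-- the nested order of directions -/
def ord : List (Finset ι) → List ι → List ι
  | [], J => J
  | b :: B, J => ord B (J.filter (fun j => decide (j ∈ b))) ++
      J.filter (fun j => !decide (j ∈ b))

omit [Fintype ι] in
lemma ord_filter (B : List (Finset ι)) (p : ι → Bool) : ∀ J : List ι,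
    (ord B J).filter p = ord B (J.filter p) := by
  induction B with
  | nil => intro J; rfl
  | cons b B ih =>
    intro J
    unfold ord
    rw [List.filter_append, ih]
    simp only [List.filter_filter, Bool.and_comm]

omit [Fintype ι] in
lemma ord_perm (B : List (Finset ι)) : ∀ J : List ι, (ord B J).Perm J := by
  induction B with
  | nil => intro J; exact List.Perm.refl _
  | cons b B ih =>
    intro J
    unfold ord
    exact ((ih _).append_right _).trans (List.filter_append_perm _ _)

end avgmore

namespace Sys

variable {X ι : Type*} (S : Sys X ι)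

lemma srt_eq_of_mono {i : ι} {p : X → ℝ} (h : S.MonI i p) : S.srt i p = p := by
  funext x
  unfold srt
  cases hu : S.up i x with
  | false =>
    simp only [Bool.false_eq_true, if_false]
    exact min_eq_left (h x hu)
  | true =>
    simp only [if_true]
    by_cases hx : S.fl i x = x
    · rw [hx]; simp
    · have hup := S.up_fl i x hx
      rw [hu] at hup
      have := h (S.fl i x) hup
      rw [S.inv] at this
      exact max_eq_left this

lemma sortL_eq_of_mono {L : List ι} {p : X → ℝ} (h : ∀ i ∈ L, S.MonI i p) :
    S.sortL L p = p := by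
  induction L with
  | nil => rfl
  | cons j L ih =>
    rw [sortL_cons, S.srt_eq_of_mono (h j (by simp))]
    exact ih (fun i hi => h i (by simp [hi]))

lemma mono_srt_self (i : ι) (g : X → ℝ) : S.MonI i (S.srt i g) := by
  intro x hx
  by_cases h : S.fl i x = x
  · rw [h]
  · have hup := S.up_fl i x h
    rw [hx] at hup
    have h2 : S.srt i g (S.fl i x) = max (g (S.fl i x)) (g x) := by
      unfold srt; rw [hup, S.inv]; simp
    have h1 : S.srt i g x = min (g x) (g (S.fl i x)) := by
      unfold srt; rw [hx]; simp
    rw [h1, h2]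
    exact (min_le_left _ _).trans (le_max_right _ _)

lemma mono_sortL {L : List ι} (hL : L.Nodup) {i : ι} (hi : i ∈ L) (g : X → ℝ) :
    S.MonI i (S.sortL L g) := by
  induction L generalizing g with
  | nil => simp at hi
  | cons j L ih =>
    have hnd := List.nodup_cons.mp hL
    rw [sortL_cons]
    rcases List.mem_cons.mp hi with h | h
    · subst h
      exact S.rel_sortL_ne hnd.1 (S.mono_srt_self i g)
    · exact ih hnd.2 h _

variable [Fintype X] [DecidableEq ι] [Fintype ι]

/-- distance of `f` from its sorted version -/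
noncomputable def aa (f : X → ℝ) (B : List (Finset ι)) (J : List ι) : ℝ :=
  ∑ x, |f x - S.sortL (ord B J) f x|

lemma aa_cons (f : X → ℝ) (b : Finset ι) (B : List (Finset ι)) (J : List ι) (hJ : J.Nodup) :
    S.aa f (b :: B) J ≤ S.aa f B (J.filter (fun j => decide (j ∈ b))) +
      2 * ∑ x, |S.srtT (ord B J) b f x - S.GG (ord B J) f x| := by
  unfold aa
  have hnd : (ord B J).Nodup := (ord_perm B J).nodup_iff.mpr hJ
  set L := J.filter (fun j => !decide (j ∈ b)) with hL
  have e1 : S.srtT (ord B J) b f = S.sortL (ord B (J.filter (fun j => decide (j ∈ b)))) f := by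
    unfold srtT
    rw [ord_filter]
  have e2 : S.sortL (ord (b :: B) J) f = S.sortL L (S.srtT (ord B J) b f) := by
    rw [e1]
    conv_lhs => unfold ord
    rw [sortL_append]
  set p := S.srtT (ord B J) b f with hp
  set G := S.GG (ord B J) f with hG
  have hfix : S.sortL L G = G := by
    apply S.sortL_eq_of_mono
    intro i hi
    apply S.GG_mono _ hnd
    rw [(ord_perm B J).mem_iff]
    exact (List.mem_filter.mp hi).1
  have hcon := S.good_sortL good_abs L p G
  rw [hfix] at hcon
  rw [e2, ← e1]
  have h3 : ∑ x, |f x - S.sortL L p x| ≤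
      ∑ x, (|f x - p x| + |p x - G x| + |S.sortL L p x - G x|) := by
    apply Finset.sum_le_sum
    intro x _
    have a1 : f x - S.sortL L p x = (f x - p x) + (p x - G x) + (G x - S.sortL L p x) := by ring
    rw [a1]
    have a2 := abs_add_le ((f x - p x) + (p x - G x)) (G x - S.sortL L p x)
    have a3 := abs_add_le (f x - p x) (p x - G x)
    rw [abs_sub_comm (G x)] at a2
    linarith
  rw [Finset.sum_add_distrib, Finset.sum_add_distrib] at h3
  linarith

omit [Fintype X] [DecidableEq ι] [Fintype ι] in
lemma WW_nonneg {w : ι → X → ℝ} (hw0 : ∀ i x, 0 ≤ w i x) (A : Finset ι) (x : X) :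
    0 ≤ WW w A x := Finset.sum_nonneg (fun i _ => hw0 i x)

lemma avg_TT {w : ι → X → ℝ} (hw0 : ∀ i x, 0 ≤ w i x) (J : List ι) :
    avgS univ (fun b => TT w (J.filter (fun j => decide (j ∈ b))).toFinset) ≤
      TT w J.toFinset / √2 := by
  unfold TT
  rw [avgS_sum, Finset.sum_div]
  apply Finset.sum_le_sum
  intro x _
  refine (avgS_sqrt_le univ (fun b => WW_nonneg hw0 _ _)).trans ?_
  rw [← Real.sqrt_div (WW_nonneg hw0 _ _)]
  apply le_of_eq
  congr 1
  have h1 : (fun b : Finset ι => WW w (J.filter (fun j => decide (j ∈ b))).toFinset x) =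
      fun b => ∑ i ∈ J.toFinset, if i ∈ b then w i x else 0 := by
    funext b
    unfold WW
    rw [← Finset.sum_filter]
    apply Finset.sum_congr _ (fun _ _ => rfl)
    ext i
    simp
  rw [h1, avgS_sum]
  unfold WW
  rw [Finset.sum_div]
  apply Finset.sum_congr rfl
  intro i _
  exact avgS_ind i _

omit [DecidableEq ι] [Fintype ι] in
lemma TT_nonneg {w : ι → X → ℝ} (A : Finset ι) : 0 ≤ TT w A :=
  Finset.sum_nonneg (fun _ _ => Real.sqrt_nonneg _)

theorem tele (f : X → ℝ) (hf : ∀ x, f x = 0 ∨ f x = 1) (w : ι → X → ℝ)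
    (hw0 : ∀ i x, 0 ≤ w i x)
    (hw : ∀ i x, S.up i x = false → f x = 1 → f (S.fl i x) = 0 → 1 ≤ w i x + w i (S.fl i x))
    (R : ℕ) : ∀ (J : List ι), J.Nodup →
    avgB R (fun B => S.aa f B J) ≤
      14 * TT w J.toFinset + (Fintype.card X : ℝ) * J.length / 2 ^ R := by
  induction R with
  | zero =>
    intro J hJ
    unfold avgB
    have h0 : 0 ≤ TT w J.toFinset := TT_nonneg _
    rw [pow_zero, div_one]
    have h1 : S.aa f [] J ≤ (Fintype.card X : ℝ) * J.length := by
      unfold aa ord
      cases J with
      | nil => simp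
      | cons j J =>
        have h2 : ∀ x, |f x - S.sortL (j :: J) f x| ≤ 1 := by
          intro x
          rcases hf x with h1 | h1 <;>
          rcases S.sortL_prop (P := fun u => u = 0 ∨ u = 1) (j :: J) f hf x with h2 | h2 <;>
          rw [h1, h2] <;> norm_num
        calc ∑ x, |f x - S.sortL (j :: J) f x| ≤ ∑ _x : X, (1:ℝ) :=
              Finset.sum_le_sum (fun x _ => h2 x)
          _ = (Fintype.card X : ℝ) := by simp
          _ ≤ _ := by
            rw [List.length_cons]
            push_cast
            have : (0:ℝ) ≤ (Fintype.card X : ℝ) * J.length := by positivity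
            linarith
    linarith
  | succ R ih =>
    intro J hJ
    have hsum : avgB (R + 1) (fun B => S.aa f B J) ≤
        avgS univ (fun b => avgB R (fun B => S.aa f B (J.filter (fun j => decide (j ∈ b))))) +
        avgB R (fun B => avgS univ (fun b =>
          2 * ∑ x, |S.srtT (ord B J) b f x - S.GG (ord B J) f x|)) := by
      conv_lhs => unfold avgB
      rw [← avgB_comm, ← avgS_add]
      apply avgS_mono
      intro b
      rw [← avgB_add]
      apply avgB_mono
      intro B
      exact S.aa_cons f b B J hJ
    have h1 : avgS univ (fun b => avgB R (fun B => S.aa f B (J.filter (fun j => decide (j ∈ b)))))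
        ≤ 14 * (TT w J.toFinset / √2) + (Fintype.card X : ℝ) * (J.length / 2) / 2 ^ R := by
      have h2 : avgS univ (fun b => avgB R (fun B =>
          S.aa f B (J.filter (fun j => decide (j ∈ b))))) ≤
          avgS univ (fun b => 14 * TT w (J.filter (fun j => decide (j ∈ b))).toFinset +
            ((Fintype.card X : ℝ) / 2 ^ R) *
              ((J.filter (fun j => decide (j ∈ b))).length : ℝ)) := by
        apply avgS_mono
        intro b
        have := ih (J.filter (fun j => decide (j ∈ b))) (hJ.filter _)
        refine this.trans (le_of_eq ?_)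
        ring
      rw [avgS_add, avgS_mul, avgS_mul, avgS_length] at h2
      have h3 := avg_TT hw0 J
      refine h2.trans ?_
      have : (Fintype.card X : ℝ) / 2 ^ R * (J.length / 2) =
        (Fintype.card X : ℝ) * (J.length / 2) / 2 ^ R := by ring
      rw [this]
      linarith
    have h2 : avgB R (fun B => avgS univ (fun b =>
        2 * ∑ x, |S.srtT (ord B J) b f x - S.GG (ord B J) f x|)) ≤ 4 * TT w J.toFinset := by
      rw [← avgB_const (ι := ι) R (4 * TT w J.toFinset)]
      apply avgB_mono
      intro B
      rw [avgS_mul]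
      have h3 := S.avg_dist_GG f hf w hw0 hw (ord B J) ((ord_perm B J).nodup_iff.mpr hJ)
      have h4 : (ord B J).toFinset = J.toFinset := List.toFinset_eq_of_perm _ _ (ord_perm B J)
      rw [h4] at h3
      linarith
    refine hsum.trans ?_
    have hT : 0 ≤ TT w J.toFinset := TT_nonneg _
    have h5 : 14 * (TT w J.toFinset / √2) + 4 * TT w J.toFinset ≤ 14 * TT w J.toFinset := by
      have h6 : TT w J.toFinset / √2 ≤ TT w J.toFinset * (5 / 7) := by
        rw [div_le_iff₀ (by positivity)]
        have h7 : (7:ℝ) / 5 ≤ √2 := by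
          apply Real.le_sqrt_of_sq_le
          norm_num
        nlinarith
      linarith
    have h8 : (Fintype.card X : ℝ) * (J.length / 2) / 2 ^ R =
        (Fintype.card X : ℝ) * J.length / 2 ^ (R + 1) := by
      rw [pow_succ]
      field_simp
    rw [h8] at h1
    linarith

/-- The robust (coloured) directed Talagrand inequality for one product of matchings. -/
theorem coloured_matching (f : X → ℝ) (hf : ∀ x, f x = 0 ∨ f x = 1) (w : ι → X → ℝ)
    (hw0 : ∀ i x, 0 ≤ w i x)
    (hw : ∀ i x, S.up i x = false → f x = 1 → f (S.fl i x) = 0 → 1 ≤ w i x + w i (S.fl i x)) :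
    ∃ G : X → ℝ, (∀ x, G x = 0 ∨ G x = 1) ∧ (∀ i, S.MonI i G) ∧
      ∑ x, |f x - G x| ≤ 14 * ∑ x, √(∑ i, w i x) := by
  classical
  have key : ∀ ε : ℝ, 0 < ε → ∃ G : X → ℝ, (∀ x, G x = 0 ∨ G x = 1) ∧ (∀ i, S.MonI i G) ∧
      ∑ x, |f x - G x| ≤ 14 * ∑ x, √(∑ i, w i x) + ε := by
    intro ε hε
    set J : List ι := (univ : Finset ι).toList with hJdef
    have hJ : J.Nodup := Finset.nodup_toList _
    have hJm : ∀ i, i ∈ J := fun i => by simp [hJdef]
    have hJF : J.toFinset = univ := by simp [hJdef]
    set M : ℝ := (Fintype.card X : ℝ) * J.length with hM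
    have hMn : 0 ≤ M := by positivity
    obtain ⟨R, hR⟩ : ∃ R : ℕ, M / ε < 2 ^ R := pow_unbounded_of_one_lt _ (by norm_num)
    obtain ⟨B, hB⟩ := exists_le_avgB R (fun B => S.aa f B J)
    have h1 := S.tele f hf w hw0 hw R J hJ
    refine ⟨S.sortL (ord B J) f, S.sortL_prop (P := fun u => u = 0 ∨ u = 1) _ f hf, ?_, ?_⟩
    · intro i
      apply S.mono_sortL ((ord_perm B J).nodup_iff.mpr hJ)
      rw [(ord_perm B J).mem_iff]
      exact hJm i
    · have h2 : M / 2 ^ R ≤ ε := by
        rw [div_le_iff₀ (by positivity)]
        rw [div_lt_iff₀ hε] at hR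
        linarith
      have h3 : TT w J.toFinset = ∑ x, √(∑ i, w i x) := by
        unfold TT WW
        rw [hJF]
      rw [h3] at h1
      have h4 : S.aa f B J = ∑ x, |f x - S.sortL (ord B J) f x| := rfl
      rw [h4] at hB
      linarith
  -- choose a minimiser
  set P : Finset (X → Bool) := univ.filter (fun G : X → Bool =>
    ∀ i, S.MonI i (fun x => if G x then (1:ℝ) else 0)) with hP
  have hne : P.Nonempty := by
    refine ⟨fun _ => false, ?_⟩
    rw [hP, Finset.mem_filter]
    refine ⟨Finset.mem_univ _, ?_⟩
    intro i x _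
    simp
  obtain ⟨G0, hG0, hmin⟩ := Finset.exists_min_image P
    (fun G : X → Bool => ∑ x, |f x - (if G x then (1:ℝ) else 0)|) hne
  refine ⟨fun x => if G0 x then (1:ℝ) else 0, ?_, ?_, ?_⟩
  · intro x
    simp only
    split_ifs <;> simp
  · exact (Finset.mem_filter.mp hG0).2
  · apply le_of_forall_pos_le_add
    intro ε hε
    obtain ⟨G, hG1, hG2, hG3⟩ := key ε hε
    have hGe : (fun x => if (decide (G x = 1)) then (1:ℝ) else 0) = G := by
      funext x
      rcases hG1 x with h | h <;> rw [h] <;> simp
    have hmem : (fun x => decide (G x = 1)) ∈ P := by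
      rw [hP, Finset.mem_filter]
      refine ⟨Finset.mem_univ _, ?_⟩
      intro i
      rw [hGe]
      exact hG2 i
    have h5 := hmin _ hmem
    refine h5.trans ?_
    refine le_trans (le_of_eq ?_) hG3
    apply Finset.sum_congr rfl
    intro x _
    have h6 : (if (decide (G x = 1)) then (1:ℝ) else 0) = G x := congrFun hGe x
    rw [h6]

end Sys

end CT
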