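import Pool.Agent.Helper24.CT.Spread
import Pool.Agent.Helper24.CT.Tele

/-! Assembly of the colourful inequality for weighted influence. -/

namespace CT

open Finset

section main
variable {ι : Type*} [DecidableEq ι] [Fintype ι] {n : ℕ}

/-- weighted coloured influence (abstract colouring weights `U`). -/
noncomputable def Psi (U : ι → (ι → Fin n) → Fin n → ℝ) (x : ι → Fin n) : ℝ :=
  ∑ i, ∑ v : Fin n, U i x v / |((v : ℕ) : ℝ) - ((x i : ℕ) : ℝ)|

noncomputable def TP (U : ι → (ι → Fin n) → Fin n → ℝ) : ℝ := ∑ x, √(Psi U x)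

/-- weights of a matching -/
noncomputable def wM (M : ℕ → ℕ → Prop) (U : ι → (ι → Fin n) → Fin n → ℝ) (i : ι)
    (x : ι → Fin n) : ℝ := if sig M (x i) = x i then 0 else U i x (sig M (x i))

noncomputable def TM (M : ℕ → ℕ → Prop) (U : ι → (ι → Fin n) → Fin n → ℝ) : ℝ :=
  ∑ x, √(∑ i, wM M U i x)

variable {U : ι → (ι → Fin n) → Fin n → ℝ}

omit [DecidableEq ι] [Fintype ι] in
lemma wM_nonneg (hU0 : ∀ i x v, 0 ≤ U i x v) (M : ℕ → ℕ → Prop) (i : ι) (x : ι → Fin n) :
    0 ≤ wM M U i x := by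
  unfold wM
  split_ifs
  · exact le_rfl
  · exact hU0 _ _ _

lemma TM_nonneg (M : ℕ → ℕ → Prop) : 0 ≤ TM M U :=
  Finset.sum_nonneg (fun _ _ => Real.sqrt_nonneg _)

lemma TP_nonneg : 0 ≤ TP U :=
  Finset.sum_nonneg (fun _ _ => Real.sqrt_nonneg _)

omit [DecidableEq ι] in
lemma Psi_nonneg (hU0 : ∀ i x v, 0 ≤ U i x v) (x : ι → Fin n) : 0 ≤ Psi U x :=
  Finset.sum_nonneg (fun _ _ => Finset.sum_nonneg (fun _ _ =>
    div_nonneg (hU0 _ _ _) (abs_nonneg _)))

theorem near_match {M : ℕ → ℕ → Prop} (hM : IsMatch M) (F : (ι → Fin n) → ℝ)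
    (hF : ∀ x, F x = 0 ∨ F x = 1) (hU0 : ∀ i x v, 0 ≤ U i x v)
    (hU : ∀ i x v, x i < v → F x = 1 → F (Function.update x i v) = 0 →
      1 ≤ U i x v + U i (Function.update x i v) (x i)) :
    Near (Cn ι n M) (WithLp.toLp 2 F) (√(14 * TM M U)) := by
  obtain ⟨G, hG01, hGm, hGs⟩ := (gsys ι n hM).coloured_matching F hF (wM M U)
    (wM_nonneg hU0 M) (by
      intro i x hx h1 h0
      have hfl : (gsys ι n hM).fl i x = Function.update x i (sig M (x i)) := rfl
      rw [hfl] at h0 ⊢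
      have hx' : ¬ (sig M (x i) < x i) := by simpa [gsys] using hx
      have hne : sig M (x i) ≠ x i := by
        intro h
        rw [h, Function.update_eq_self] at h0
        rw [h0] at h1
        norm_num at h1
      have hlt : x i < sig M (x i) := lt_of_le_of_ne (not_lt.mp hx') (Ne.symm hne)
      have h2 := hU i x (sig M (x i)) hlt h1 h0
      unfold wM
      rw [if_neg hne, Function.update_self, sig_sig hM, if_neg (Ne.symm hne)]
      exact h2)
  refine ⟨WithLp.toLp 2 G, (mem_Cn_iff hM _).mpr hGm, ?_⟩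
  rw [EuclideanSpace.norm_eq]
  apply Real.sqrt_le_sqrt
  refine le_trans (le_of_eq ?_) hGs
  apply Finset.sum_congr rfl
  intro x _
  rw [PiLp.sub_apply]
  show ‖F x - G x‖ ^ 2 = |F x - G x|
  rcases hF x with h | h <;> rcases hG01 x with h' | h' <;> rw [h, h'] <;> norm_num

omit [DecidableEq ι] [Fintype ι] in
/-- weight bound for a short matching -/
lemma wM_le_short (hU0 : ∀ i x v, 0 ≤ U i x v) {M : ℕ → ℕ → Prop} (hM : IsMatch M)
    (hs : ∀ a b, M a b → b ≤ a + 2) (i : ι) (x : ι → Fin n) :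
    wM M U i x ≤ 2 * ∑ v : Fin n, U i x v / |((v : ℕ) : ℝ) - ((x i : ℕ) : ℝ)| := by
  have hnn : ∀ v : Fin n, 0 ≤ U i x v / |((v : ℕ) : ℝ) - ((x i : ℕ) : ℝ)| := fun v =>
    div_nonneg (hU0 _ _ _) (abs_nonneg _)
  unfold wM
  split_ifs with h
  · have : 0 ≤ ∑ v : Fin n, U i x v / |((v : ℕ) : ℝ) - ((x i : ℕ) : ℝ)| :=
      Finset.sum_nonneg (fun v _ => hnn v)
    linarith
  · set v := sig M (x i) with hv
    have h1 : U i x v / |((v : ℕ) : ℝ) - ((x i : ℕ) : ℝ)| ≤
        ∑ v : Fin n, U i x v / |((v : ℕ) : ℝ) - ((x i : ℕ) : ℝ)| :=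
      Finset.single_le_sum (f := fun v : Fin n => U i x v / |((v : ℕ) : ℝ) - ((x i : ℕ) : ℝ)|)
        (fun v _ => hnn v) (Finset.mem_univ v)
    have h2 : M (x i) v ∨ M v (x i) := by
      rcases sig_cases M (x i) with ⟨b, hb⟩ | ⟨b, hb⟩ | ⟨h3, h4⟩
      · left; rw [hv, sig_lower hM hb]; exact hb
      · right; rw [hv, sig_upper hM hb]; exact hb
      · exact absurd (sig_fix h3 h4) h
    have h3 : |((v : ℕ) : ℝ) - ((x i : ℕ) : ℝ)| ≤ 2 ∧ 0 < |((v : ℕ) : ℝ) - ((x i : ℕ) : ℝ)| := by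
      constructor
      · rw [abs_le]
        rcases h2 with h2 | h2
        · have e1 := hs _ _ h2
          have e2 := hM.lt h2
          have e1' : ((v : ℕ) : ℝ) ≤ ((x i : ℕ) : ℝ) + 2 := by exact_mod_cast e1
          have e2' : ((x i : ℕ) : ℝ) < ((v : ℕ) : ℝ) := by exact_mod_cast e2
          constructor <;> linarith
        · have e1 := hs _ _ h2
          have e2 := hM.lt h2
          have e1' : ((x i : ℕ) : ℝ) ≤ ((v : ℕ) : ℝ) + 2 := by exact_mod_cast e1
          have e2' : ((v : ℕ) : ℝ) < ((x i : ℕ) : ℝ) := by exact_mod_cast e2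
          constructor <;> linarith
      · rw [abs_pos, sub_ne_zero]
        intro h5
        apply h
        have : (v : ℕ) = (x i : ℕ) := by exact_mod_cast h5
        exact Fin.ext this
    have h4 : U i x v ≤ 2 * (U i x v / |((v : ℕ) : ℝ) - ((x i : ℕ) : ℝ)|) := by
      rw [← mul_div_assoc, le_div_iff₀ h3.2]
      have := mul_le_mul_of_nonneg_left h3.1 (hU0 i x v)
      linarith
    linarith

lemma TM_le_short (hU0 : ∀ i x v, 0 ≤ U i x v) {M : ℕ → ℕ → Prop} (hM : IsMatch M)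
    (hs : ∀ a b, M a b → b ≤ a + 2) : TM M U ≤ 2 * TP U := by
  unfold TM TP
  rw [Finset.mul_sum]
  apply Finset.sum_le_sum
  intro x _
  have h1 : ∑ i, wM M U i x ≤ 2 * Psi U x := by
    unfold Psi
    rw [Finset.mul_sum]
    exact Finset.sum_le_sum (fun i _ => wM_le_short hU0 hM hs i x)
  have h2 := Psi_nonneg hU0 x
  calc √(∑ i, wM M U i x) ≤ √(2 ^ 2 * Psi U x) := by
        apply Real.sqrt_le_sqrt
        linarith
    _ = 2 * √(Psi U x) := by
        rw [Real.sqrt_mul (by norm_num), Real.sqrt_sq (by norm_num)]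

omit [DecidableEq ι] [Fintype ι] in
/-- averaged weight bound for a family of matchings with unique parameter -/
lemma sum_wM_le (hU0 : ∀ i x v, 0 ≤ U i x v) {B : ℕ} {Mf : ℕ → ℕ → ℕ → Prop}
    (hM : ∀ ρ, IsMatch (Mf ρ)) (hlen : ∀ ρ a b, Mf ρ a b → b ≤ a + 4 * B)
    (huniq : ∀ ρ ρ' a b, ρ < B → ρ' < B → Mf ρ a b → Mf ρ' a b → ρ = ρ') (i : ι)
    (x : ι → Fin n) :
    ∑ ρ ∈ range B, wM (Mf ρ) U i x ≤
      4 * B * ∑ v : Fin n, U i x v / |((v : ℕ) : ℝ) - ((x i : ℕ) : ℝ)| := by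
  classical
  have hnn : ∀ v : Fin n, 0 ≤ U i x v / |((v : ℕ) : ℝ) - ((x i : ℕ) : ℝ)| := fun v =>
    div_nonneg (hU0 _ _ _) (abs_nonneg _)
  have h1 : ∀ ρ, wM (Mf ρ) U i x ≤
      ∑ v : Fin n, if (Mf ρ (x i) v ∨ Mf ρ v (x i)) then U i x v else 0 := by
    intro ρ
    have hnn' : ∀ v : Fin n, 0 ≤ if (Mf ρ (x i) v ∨ Mf ρ v (x i)) then U i x v else 0 := by
      intro v
      split_ifs
      · exact hU0 _ _ _
      · exact le_rfl
    unfold wM
    split_ifs with h
    · exact Finset.sum_nonneg (fun v _ => hnn' v)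
    · set v := sig (Mf ρ) (x i) with hv
      have h2 : Mf ρ (x i) v ∨ Mf ρ v (x i) := by
        rcases sig_cases (Mf ρ) (x i) with ⟨b, hb⟩ | ⟨b, hb⟩ | ⟨h3, h4⟩
        · left; rw [hv, sig_lower (hM ρ) hb]; exact hb
        · right; rw [hv, sig_upper (hM ρ) hb]; exact hb
        · exact absurd (sig_fix h3 h4) h
      have h3 := Finset.single_le_sum
        (f := fun v : Fin n => if (Mf ρ (x i) v ∨ Mf ρ v (x i)) then U i x v else 0)
        (fun v _ => hnn' v) (Finset.mem_univ v)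
      simp only [if_pos h2] at h3
      exact h3
  refine (Finset.sum_le_sum (fun ρ _ => h1 ρ)).trans ?_
  rw [Finset.sum_comm, Finset.mul_sum]
  apply Finset.sum_le_sum
  intro v _
  by_cases hex : ∃ ρ ∈ range B, (Mf ρ (x i) v ∨ Mf ρ v (x i))
  · obtain ⟨ρ0, hρ0, h0⟩ := hex
    rw [Finset.sum_eq_single_of_mem ρ0 hρ0]
    · rw [if_pos h0]
      have h3 : |((v : ℕ) : ℝ) - ((x i : ℕ) : ℝ)| ≤ 4 * B ∧
          0 < |((v : ℕ) : ℝ) - ((x i : ℕ) : ℝ)| := by
        rcases h0 with h2 | h2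
        · have e1 := hlen _ _ _ h2
          have e2 := (hM ρ0).lt h2
          have e1' : ((v : ℕ) : ℝ) ≤ ((x i : ℕ) : ℝ) + 4 * B := by exact_mod_cast e1
          have e2' : ((x i : ℕ) : ℝ) < ((v : ℕ) : ℝ) := by exact_mod_cast e2
          rw [abs_of_pos (by linarith)]
          constructor <;> linarith
        · have e1 := hlen _ _ _ h2
          have e2 := (hM ρ0).lt h2
          have e1' : ((x i : ℕ) : ℝ) ≤ ((v : ℕ) : ℝ) + 4 * B := by exact_mod_cast e1
          have e2' : ((v : ℕ) : ℝ) < ((x i : ℕ) : ℝ) := by exact_mod_cast e2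
          rw [abs_of_neg (by linarith)]
          constructor <;> linarith
      rw [← mul_div_assoc, le_div_iff₀ h3.2]
      have := mul_le_mul_of_nonneg_left h3.1 (hU0 i x v)
      linarith
    · intro ρ hρ hne
      apply if_neg
      rintro (h2 | h2)
      · rcases h0 with h0 | h0
        · exact hne (huniq _ _ _ _ (Finset.mem_range.mp hρ) (Finset.mem_range.mp hρ0) h2 h0)
        · exact absurd ((hM ρ).lt h2) (not_lt.mpr ((hM ρ0).lt h0).le)
      · rcases h0 with h0 | h0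
        · exact absurd ((hM ρ).lt h2) (not_lt.mpr ((hM ρ0).lt h0).le)
        · exact hne (huniq _ _ _ _ (Finset.mem_range.mp hρ) (Finset.mem_range.mp hρ0) h2 h0)
  · have hz : ∑ ρ ∈ range B, (if (Mf ρ (x i) v ∨ Mf ρ v (x i)) then U i x v else 0) = 0 := by
      apply Finset.sum_eq_zero
      intro ρ hρ
      apply if_neg
      intro h
      exact hex ⟨ρ, hρ, h⟩
    rw [hz]
    have := hnn v
    positivity

lemma sum_TM_le (hU0 : ∀ i x v, 0 ≤ U i x v) {B : ℕ} {Mf : ℕ → ℕ → ℕ → Prop}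
    (hM : ∀ ρ, IsMatch (Mf ρ)) (hlen : ∀ ρ a b, Mf ρ a b → b ≤ a + 4 * B)
    (huniq : ∀ ρ ρ' a b, ρ < B → ρ' < B → Mf ρ a b → Mf ρ' a b → ρ = ρ') :
    ∑ ρ ∈ range B, TM (Mf ρ) U ≤ 2 * B * TP U := by
  unfold TM TP
  rw [Finset.sum_comm, Finset.mul_sum]
  apply Finset.sum_le_sum
  intro x _
  have hP := Psi_nonneg hU0 x
  have h1 : ∑ ρ ∈ range B, ∑ i, wM (Mf ρ) U i x ≤ 4 * B * Psi U x := by
    rw [Finset.sum_comm]
    unfold Psi
    rw [Finset.mul_sum]
    exact Finset.sum_le_sum (fun i _ => sum_wM_le hU0 hM hlen huniq i x)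
  have h2 := sq_sum_le_card_mul_sum_sq (s := range B) (f := fun ρ => √(∑ i, wM (Mf ρ) U i x))
  have h3 : ∑ ρ ∈ range B, (√(∑ i, wM (Mf ρ) U i x)) ^ 2 =
      ∑ ρ ∈ range B, ∑ i, wM (Mf ρ) U i x := by
    apply Finset.sum_congr rfl
    intro ρ _
    exact Real.sq_sqrt (Finset.sum_nonneg (fun i _ => wM_nonneg hU0 _ _ _))
  rw [h3, Finset.card_range] at h2
  have h4 : (2 * (B:ℝ) * √(Psi U x)) ^ 2 = B * (4 * B * Psi U x) := by
    rw [mul_pow, Real.sq_sqrt hP]
    ring
  apply abs_le_of_sq_le_sq' _ (by positivity) |>.2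
  rw [h4]
  refine h2.trans ?_
  have : (0:ℝ) ≤ B := by positivity
  exact mul_le_mul_of_nonneg_left h1 this

theorem near_rs_F (F : (ι → Fin n) → ℝ)
    (hF : ∀ x, F x = 0 ∨ F x = 1) (hU0 : ∀ i x v, 0 ≤ U i x v)
    (hU : ∀ i x v, x i < v → F x = 1 → F (Function.update x i v) = 0 →
      1 ≤ U i x v + U i (Function.update x i v) (x i)) {B : ℕ} (hB : 0 < B) (c : ℕ) (hc : c < 8) :
    Near (Cn ι n (Rs B c)) (WithLp.toLp 2 F) (√(112 * TP U)) := by
  have h1 := sum_TM_le hU0 (B := B) (Mf := fun ρ => M1 B c ρ) (fun ρ => m1_match hB hc)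
    (fun ρ a b h => lt_four hB (Or.inl h)) (fun ρ ρ' a b h h' g g' => m1_shift hB hc g g' h h')
  have h2 := sum_TM_le hU0 (B := B) (Mf := fun ρ => M2 B c ρ) (fun ρ => m2_match hB hc)
    (fun ρ a b h => lt_four hB (Or.inr h)) (fun ρ ρ' a b h h' g g' => m2_shift hB hc g g' h h')
  have hBr : (0:ℝ) < B := by exact_mod_cast hB
  obtain ⟨ρ, hρ, hle⟩ : ∃ ρ ∈ range B, TM (M1 B c ρ) U + TM (M2 B c ρ) U ≤ 4 * TP U := by
    apply Finset.exists_le_of_sum_le ⟨0, Finset.mem_range.mpr hB⟩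
    rw [Finset.sum_add_distrib, Finset.sum_const, Finset.card_range, nsmul_eq_mul]
    linarith
  have n1 := near_match (m1_match (ρ := ρ) hB hc) F hF hU0 hU
  have n2 := near_match (m2_match (ρ := ρ) hB hc) F hF hU0 hU
  refine (near_rs hB hc n1 n2).mono (fun _ h => h) ?_
  have t1 : 0 ≤ TM (M1 B c ρ) U := TM_nonneg _
  have t2 : 0 ≤ TM (M2 B c ρ) U := TM_nonneg _
  apply Real.le_sqrt_of_sq_le
  have s1 := Real.sq_sqrt (show 0 ≤ 14 * TM (M1 B c ρ) U by positivity)
  have s2 := Real.sq_sqrt (show 0 ≤ 14 * TM (M2 B c ρ) U by positivity)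
  nlinarith [sq_nonneg (√(14 * TM (M1 B c ρ) U) - √(14 * TM (M2 B c ρ) U))]

theorem near_scale (F : (ι → Fin n) → ℝ)
    (hF : ∀ x, F x = 0 ∨ F x = 1) (hU0 : ∀ i x v, 0 ≤ U i x v)
    (hU : ∀ i x v, x i < v → F x = 1 → F (Function.update x i v) = 0 →
      1 ≤ U i x v + U i (Function.update x i v) (x i)) (k : ℕ) :
    Near (Cn ι n (Ev (2 ^ k))) (WithLp.toLp 2 F) (4 * √(112 * TP U)) ∧
    Near (Cn ι n (Od (2 ^ k))) (WithLp.toLp 2 F) (4 * √(112 * TP U)) := by
  have hTP : 0 ≤ TP U := TP_nonneg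
  by_cases hk : k < 2
  · have hpos : 0 < 2 ^ k := pow_pos (by norm_num) _
    have hle2 : 2 ^ k ≤ 2 := by
      have : k ≤ 1 := by omega
      calc 2 ^ k ≤ 2 ^ 1 := Nat.pow_le_pow_right (by norm_num) this
        _ = 2 := by norm_num
    have key : ∀ T : ℝ, 0 ≤ T → T ≤ 2 * TP U → √(14 * T) ≤ 4 * √(112 * TP U) := by
      intro T hT0 hT
      have e : 4 * √(112 * TP U) = √(4 ^ 2 * (112 * TP U)) := by
        rw [Real.sqrt_mul (by norm_num : (0:ℝ) ≤ 4 ^ 2), Real.sqrt_sq (by norm_num)]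
      rw [e]
      apply Real.sqrt_le_sqrt
      linarith
    constructor
    · have h1 := TM_le_short hU0 (ev_match hpos) (fun a b h => by have := h.1; omega)
      exact (near_match (ev_match hpos) F hF hU0 hU).mono (fun _ h => h) (key _ (TM_nonneg _) h1)
    · have h1 := TM_le_short hU0 (od_match hpos) (fun a b h => by have := h.1; omega)
      exact (near_match (od_match hpos) F hF hU0 hU).mono (fun _ h => h) (key _ (TM_nonneg _) h1)
  · obtain ⟨m, rfl⟩ : ∃ m, k = m + 2 := ⟨k - 2, by omega⟩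
    have e : 2 ^ (m + 2) = 4 * 2 ^ m := by rw [pow_add]; ring
    have hpos : 0 < 2 ^ m := pow_pos (by norm_num) _
    rw [e]
    exact ⟨near_ev hpos (fun c hc => near_rs_F F hF hU0 hU hpos c hc),
      near_od hpos (fun c hc => near_rs_F F hF hU0 hU hpos c hc)⟩

omit [Fintype ι] in
/-- coordinatewise monotone functions are monotone -/
lemma mono_of_coord [Fintype ι] {p : (ι → Fin n) → ℝ}
    (h : ∀ (i : ι) (x : ι → Fin n) (v : Fin n), x i ≤ v → p x ≤ p (Function.update x i v)) :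
    Monotone p := by
  intro x y hxy
  have key : ∀ s : Finset ι, p x ≤ p (s.piecewise y x) := by
    intro s
    induction s using Finset.induction_on with
    | empty => rw [Finset.piecewise_empty]
    | insert j s hj ih =>
      rw [Finset.piecewise_insert]
      refine ih.trans (h j _ _ ?_)
      rw [Finset.piecewise_eq_of_notMem _ _ _ hj]
      exact hxy j
  have := key univ
  rwa [Finset.piecewise_univ] at this

theorem main_bound (F : (ι → Fin n) → ℝ)
    (hF : ∀ x, F x = 0 ∨ F x = 1) (hU0 : ∀ i x v, 0 ≤ U i x v)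
    (hU : ∀ i x v, x i < v → F x = 1 → F (Function.update x i v) = 0 →
      1 ≤ U i x v + U i (Function.update x i v) (x i)) (L : ℕ) (hL : n ≤ 2 ^ L) :
    ∃ G : (ι → Fin n) → Bool, Monotone G ∧
      ((univ.filter (fun x => F x ≠ if G x then 1 else 0)).card : ℝ) ≤
        28672 * (L : ℝ) ^ 2 * TP U := by
  have h1 := scale_chain L hL (fun k _ => (near_scale F hF hU0 hU k).1)
    (fun k _ => (near_scale F hF hU0 hU k).2) L le_rfl
  rw [Nat.sub_self, pow_zero] at h1
  obtain ⟨p, hp, hn⟩ := h1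
  have hmono : Monotone (fun x => p x) := mono_of_coord (mono_of_fl_one hp)
  refine ⟨fun x => decide (1 / 2 < p x), ?_, ?_⟩
  · intro x y hxy
    have := hmono hxy
    show decide (1 / 2 < p x) ≤ decide (1 / 2 < p y)
    by_cases hx : 1 / 2 < p x
    · have hy : 1 / 2 < p y := lt_of_lt_of_le hx this
      rw [decide_eq_true hx, decide_eq_true hy]
    · rw [decide_eq_false hx]
      exact Bool.false_le _
  · have hTP : 0 ≤ TP U := TP_nonneg
    have h2 : ‖WithLp.toLp 2 F - p‖ ^ 2 ≤ (2 * (L:ℝ) * (4 * √(112 * TP U))) ^ 2 :=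
      pow_le_pow_left₀ (norm_nonneg _) hn 2
    have h3 : (2 * (L:ℝ) * (4 * √(112 * TP U))) ^ 2 = 7168 * (L:ℝ) ^ 2 * TP U := by
      have := Real.sq_sqrt (show 0 ≤ 112 * TP U by positivity)
      calc (2 * (L:ℝ) * (4 * √(112 * TP U))) ^ 2 = 64 * (L:ℝ) ^ 2 * (√(112 * TP U)) ^ 2 := by ring
        _ = _ := by rw [this]; ring
    rw [h3, EuclideanSpace.norm_sq_eq] at h2
    have h4 : ((univ.filter (fun x => F x ≠ if (decide (1 / 2 < p x)) then 1 else 0)).card : ℝ) ≤
        ∑ x, 4 * ‖(WithLp.toLp 2 F - p) x‖ ^ 2 := by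
      rw [Finset.card_eq_sum_ones, Finset.sum_filter]
      push_cast
      apply Finset.sum_le_sum
      intro x _
      rw [PiLp.sub_apply]
      show _ ≤ 4 * ‖F x - p x‖ ^ 2
      rw [Real.norm_eq_abs, sq_abs]
      by_cases hc : F x ≠ if (decide (1 / 2 < p x)) = true then 1 else 0
      · rw [if_pos hc]
        by_cases hx : 1 / 2 < p x
        · rw [decide_eq_true hx, if_pos rfl] at hc
          rcases hF x with h | h
          · rw [h]; nlinarith
          · exact absurd h hc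
        · rw [decide_eq_false hx, if_neg (by simp)] at hc
          rcases hF x with h | h
          · exact absurd h hc
          · rw [h]
            rw [not_lt] at hx
            nlinarith
      · rw [if_neg hc]
        positivity
    rw [← Finset.mul_sum] at h4
    linarith

end main

end CT
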