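import Pool.Agent.Helper24.CT.Vari

/-! Projections onto closed convex sets, compare-exchange and projections. -/

namespace CT

open Finset

section hilbert
variable {E : Type*} [NormedAddCommGroup E] [InnerProductSpace ℝ E]

/-- `p` is a nearest point of `K` to `f`. -/
def IsProj (K : Set E) (f p : E) : Prop := p ∈ K ∧ ∀ q ∈ K, ‖f - p‖ ≤ ‖f - q‖

/-- `K` contains a point within `r` of `f`. -/
def Near (K : Set E) (f : E) (r : ℝ) : Prop := ∃ q ∈ K, ‖f - q‖ ≤ r

lemma exists_isProj [CompleteSpace E] {K : Set E} (hne : K.Nonempty) (hc : IsClosed K)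
    (hK : Convex ℝ K) (f : E) : ∃ p, IsProj K f p := by
  obtain ⟨p, hp, heq⟩ := exists_norm_eq_iInf_of_complete_convex hne hc.isComplete hK f
  refine ⟨p, hp, ?_⟩
  intro q hq
  rw [heq]
  exact ciInf_le ⟨0, Set.forall_mem_range.2 fun _ => norm_nonneg _⟩ (⟨q, hq⟩ : K)

lemma IsProj.inner_le {K : Set E} (hK : Convex ℝ K) {f p : E} (h : IsProj K f p) :
    ∀ q ∈ K, inner ℝ (f - p) (q - p) ≤ 0 := by
  rw [← norm_eq_iInf_iff_real_inner_le_zero hK h.1]
  have : Nonempty K := ⟨⟨p, h.1⟩⟩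
  apply le_antisymm
  · exact le_ciInf (fun q => h.2 q.1 q.2)
  · exact ciInf_le ⟨0, Set.forall_mem_range.2 fun _ => norm_nonneg _⟩ (⟨p, h.1⟩ : K)

lemma IsProj.nonexp {K : Set E} (hK : Convex ℝ K) {f g p q : E} (hp : IsProj K f p)
    (hq : IsProj K g q) : ‖p - q‖ ≤ ‖f - g‖ := by
  have h1 := hp.inner_le hK q hq.1
  have h2 := hq.inner_le hK p hp.1
  have h3 : inner ℝ (p - q) (p - q) ≤ inner ℝ (f - g) (p - q) := by
    have e1 : inner ℝ (f - p) (q - p) = - inner ℝ (f - p) (p - q) := by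
      rw [← inner_neg_right]; congr 1; abel
    have e2 : (inner ℝ (f - g) (p - q) : ℝ) = inner ℝ (f - p) (p - q) - inner ℝ (g - q) (p - q)
        + inner ℝ (p - q) (p - q) := by
      rw [← inner_sub_left, ← inner_add_left]; congr 1; abel
    rw [e1] at h1
    rw [e2]
    linarith
  rw [real_inner_self_eq_norm_sq] at h3
  have h4 := real_inner_le_norm (f - g) (p - q)
  rcases (norm_nonneg (p - q)).lt_or_eq with h5 | h5
  · have : ‖p - q‖ * ‖p - q‖ ≤ ‖f - g‖ * ‖p - q‖ := by nlinarith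
    exact le_of_mul_le_mul_right this h5
  · rw [← h5]; exact norm_nonneg _

lemma IsProj.uniq {K : Set E} (hK : Convex ℝ K) {f p q : E} (hp : IsProj K f p)
    (hq : q ∈ K) (h : ‖f - q‖ ≤ ‖f - p‖) : q = p := by
  have hq' : IsProj K f q := ⟨hq, fun r hr => h.trans (hp.2 r hr)⟩
  have := hq'.nonexp hK hp
  rw [sub_self, norm_zero] at this
  have h0 : ‖q - p‖ = 0 := le_antisymm this (norm_nonneg _)
  rwa [norm_eq_zero, sub_eq_zero] at h0

lemma Near.inter [CompleteSpace E] {K1 K2 : Set E} (hc : IsClosed K1) (hK : Convex ℝ K1)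
    (hpres : ∀ f p, IsProj K1 f p → f ∈ K2 → p ∈ K2) {f : E} {r s : ℝ}
    (h1 : Near K1 f r) (h2 : Near K2 f s) : Near (K1 ∩ K2) f (r + s) := by
  obtain ⟨q1, hq1, hr⟩ := h1
  obtain ⟨q2, hq2, hs⟩ := h2
  obtain ⟨p1, hp1⟩ := exists_isProj ⟨q1, hq1⟩ hc hK f
  obtain ⟨p, hp⟩ := exists_isProj ⟨q1, hq1⟩ hc hK q2
  refine ⟨p, ⟨hp.1, hpres _ _ hp hq2⟩, ?_⟩
  have h3 := hp1.2 q1 hq1
  have h4 := hp1.nonexp hK hp
  calc ‖f - p‖ = ‖(f - p1) + (p1 - p)‖ := by congr 1; abel
    _ ≤ ‖f - p1‖ + ‖p1 - p‖ := norm_add_le _ _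
    _ ≤ r + s := by linarith

omit [InnerProductSpace ℝ E] in
lemma Near.mono {K1 K2 : Set E} (h : K1 ⊆ K2) {f : E} {r s : ℝ} (hrs : r ≤ s)
    (h1 : Near K1 f r) : Near K2 f s := by
  obtain ⟨q, hq, hr⟩ := h1
  exact ⟨q, h hq, hr.trans hrs⟩

end hilbert

section sorting
variable {X ι : Type*} [Fintype X]

lemma swap_ineq {a b u v : ℝ} (hab : a ≤ b) :
    (a - min u v) ^ 2 + (b - max u v) ^ 2 ≤ (a - u) ^ 2 + (b - v) ^ 2 := by
  rcases le_total u v with h | h
  · simp [h]
  · simp only [h, min_eq_right, max_eq_left]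
    nlinarith [mul_nonneg (sub_nonneg.mpr hab) (sub_nonneg.mpr h)]

/-- If `f` respects direction `i` and the compare-exchange of the projection stays in `K` then
the projection respects direction `i`. -/
theorem proj_mono (S : Sys X ι) (i : ι) {K : Set (EuclideanSpace ℝ X)} (hK : Convex ℝ K)
    {f p : EuclideanSpace ℝ X} (hp : IsProj K f p) (hf : S.MonI i f)
    (hcl : WithLp.toLp 2 (S.srt i p) ∈ K) : S.MonI i p := by
  have h1 : ‖f - WithLp.toLp 2 (S.srt i p)‖ ≤ ‖f - p‖ := by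
    rw [EuclideanSpace.norm_eq, EuclideanSpace.norm_eq]
    apply Real.sqrt_le_sqrt
    apply S.pair_sum_le i
    intro x
    simp only [PiLp.sub_apply, Real.norm_eq_abs, sq_abs]
    by_cases hx : S.fl i x = x
    · have e1 : S.srt i p x = p x := by unfold Sys.srt; rw [hx]; simp
      rw [hx, e1]
    · have hup := S.up_fl i x hx
      cases hu : S.up i x with
      | false =>
        rw [hu] at hup
        have e1 : S.srt i p x = min (p x) (p (S.fl i x)) := by simp [Sys.srt, hu]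
        have e2 : S.srt i p (S.fl i x) = max (p x) (p (S.fl i x)) := by
          simp [Sys.srt, hup, S.inv, max_comm]
        rw [e1, e2]
        exact swap_ineq (hf x hu)
      | true =>
        rw [hu] at hup
        have h3 := hf (S.fl i x) hup
        rw [S.inv] at h3
        have e1 : S.srt i p x = max (p (S.fl i x)) (p x) := by simp [Sys.srt, hu, max_comm]
        have e2 : S.srt i p (S.fl i x) = min (p (S.fl i x)) (p x) := by
          simp [Sys.srt, hup, S.inv]
        rw [e1, e2]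
        have h4 := swap_ineq (u := p (S.fl i x)) (v := p x) h3
        linarith
  have h2 := hp.uniq hK hcl h1
  have h3 : S.srt i p = p := by
    have := congrArg (fun q : EuclideanSpace ℝ X => (q : X → ℝ)) h2
    exact this
  intro x hx
  have h4 := congrFun h3 x
  unfold Sys.srt at h4
  rw [hx] at h4
  simp only [Bool.false_eq_true, if_false] at h4
  rw [← h4]
  exact min_le_right _ _

end sorting

end CT
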