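import Pool.Agent.Helper24.CT.Grid

/-! Dyadic scales: the relations `(a, a + h)` and the multiscale projection argument. -/

namespace CT

open Finset

/-- `(a, a+h)` with `a / h` even -/
def Ev (h a b : ℕ) : Prop := b = a + h ∧ (a / h) % 2 = 0
/-- `(a, a+h)` with `a / h` odd -/
def Od (h a b : ℕ) : Prop := b = a + h ∧ (a / h) % 2 = 1
/-- all `(a, a+h)` -/
def Fl (h a b : ℕ) : Prop := b = a + h
/-- `(a, a+h)` with `a / h = j` -/
def Sg (h j a b : ℕ) : Prop := b = a + h ∧ a / h = j

lemma div_add1 {h : ℕ} (hh : 0 < h) (a : ℕ) : (a + h) / h = a / h + 1 :=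
  Nat.add_div_right a hh

lemma ev_match {h : ℕ} (hh : 0 < h) : IsMatch (Ev h) where
  lt := fun h1 => by have := h1.1; omega
  right := fun h1 h2 => by have := h1.1; have := h2.1; omega
  left := fun h1 h2 => by have := h1.1; have := h2.1; omega
  disj := by
    rintro a b c ⟨h1, h2⟩ ⟨h3, h4⟩
    rw [h1, div_add1 hh] at h4
    omega

lemma od_match {h : ℕ} (hh : 0 < h) : IsMatch (Od h) where
  lt := fun h1 => by have := h1.1; omega
  right := fun h1 h2 => by have := h1.1; have := h2.1; omega
  left := fun h1 h2 => by have := h1.1; have := h2.1; omega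
  disj := by
    rintro a b c ⟨h1, h2⟩ ⟨h3, h4⟩
    rw [h1, div_add1 hh] at h4
    omega

lemma sg_match {h : ℕ} (hh : 0 < h) (j : ℕ) : IsMatch (Sg h j) where
  lt := fun h1 => by have := h1.1; omega
  right := fun h1 h2 => by have := h1.1; have := h2.1; omega
  left := fun h1 h2 => by have := h1.1; have := h2.1; omega
  disj := by
    rintro a b c ⟨h1, h2⟩ ⟨h3, h4⟩
    rw [h1, div_add1 hh] at h4
    omega

lemma le_of_div_pos' {a h : ℕ} (h1 : a / h ≠ 0) : h ≤ a := by
  by_contra hc
  exact h1 (Nat.div_eq_of_lt (not_le.mp hc))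

/-- full matching exchange preserves the relation at distance `2h` -/
lemma clo_fl_ev {n h : ℕ} (hh : 0 < h) (R' : ℕ → ℕ → Prop) : Clo n (Fl (2 * h)) R' (Ev h) := by
  intro q hq _ a b hab
  have hM := ev_match hh
  have hab' : (b : ℕ) = a + 2 * h := hab
  have hbn := b.2
  rcases Nat.mod_two_eq_zero_or_one ((a : ℕ) / h) with hpar | hpar
  · -- `a` is lower
    let a1 : Fin n := ⟨a + h, by omega⟩
    have ha1 : Ev h a a1 := ⟨rfl, hpar⟩
    have hbdiv : (b : ℕ) / h = a / h + 2 := by
      rw [hab', show (a : ℕ) + 2 * h = a + h + h by ring, div_add1 hh, div_add1 hh]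
    rw [S1_lower hM ha1]
    by_cases hb : (b : ℕ) + h < n
    · let b1 : Fin n := ⟨b + h, hb⟩
      have hb1 : Ev h b b1 := ⟨rfl, by rw [hbdiv]; omega⟩
      rw [S1_lower hM hb1]
      exact min_le_min (hq a b hab) (hq a1 b1 (show (b : ℕ) + h = a + h + 2 * h by omega))
    · rw [S1_fix]
      · exact (min_le_left _ _).trans (hq a b hab)
      · intro c hc
        have := hc.1
        have := c.2
        omega
      · intro c hc
        have h1 := hc.1
        have h2 : (b : ℕ) / h = c / h + 1 := by rw [h1, div_add1 hh]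
        have h3 := hc.2
        omega
  · have hha : h ≤ (a : ℕ) := le_of_div_pos' (by omega)
    let a1 : Fin n := ⟨a - h, by omega⟩
    let b1 : Fin n := ⟨a + h, by omega⟩
    have ha1 : Ev h a1 a := by
      have h1 : (a : ℕ) = (a - h) + h := by omega
      refine ⟨h1, ?_⟩
      have h2 : (a : ℕ) / h = ((a : ℕ) - h) / h + 1 := by
        conv_lhs => rw [h1]
        exact div_add1 hh _
      show (((a : ℕ) - h) / h) % 2 = 0
      omega
    have hb1 : Ev h b1 b := by
      refine ⟨show (b : ℕ) = a + h + h by omega, ?_⟩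
      show (((a : ℕ) + h) / h) % 2 = 0
      rw [div_add1 hh]
      omega
    rw [S1_upper hM ha1, S1_upper hM hb1]
    exact max_le_max (hq a b hab)
      (hq a1 b1 (show (a : ℕ) + h = a - h + 2 * h by omega))

lemma clo_fl_od {n h : ℕ} (hh : 0 < h) (R' : ℕ → ℕ → Prop) : Clo n (Fl (2 * h)) R' (Od h) := by
  intro q hq _ a b hab
  have hM := od_match hh
  have hab' : (b : ℕ) = a + 2 * h := hab
  have hbn := b.2
  rcases Nat.mod_two_eq_zero_or_one ((a : ℕ) / h) with hpar | hpar
  · let b1 : Fin n := ⟨a + h, by omega⟩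
    have hb1 : Od h b1 b := by
      refine ⟨show (b : ℕ) = a + h + h by omega, ?_⟩
      show (((a : ℕ) + h) / h) % 2 = 1
      rw [div_add1 hh]
      omega
    rw [S1_upper hM hb1]
    by_cases hha : h ≤ (a : ℕ)
    · let a1 : Fin n := ⟨a - h, by omega⟩
      have ha1 : Od h a1 a := by
        have h1 : (a : ℕ) = (a - h) + h := by omega
        refine ⟨h1, ?_⟩
        have h2 : (a : ℕ) / h = ((a : ℕ) - h) / h + 1 := by
          conv_lhs => rw [h1]
          exact div_add1 hh _
        show (((a : ℕ) - h) / h) % 2 = 1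
        omega
      rw [S1_upper hM ha1]
      exact max_le_max (hq a b hab)
        (hq a1 b1 (show (a : ℕ) + h = a - h + 2 * h by omega))
    · rw [S1_fix]
      · exact (hq a b hab).trans (le_max_left _ _)
      · intro c hc
        have := hc.2
        omega
      · intro c hc
        have := hc.1
        omega
  · -- `a` is lower
    let a1 : Fin n := ⟨a + h, by omega⟩
    have ha1 : Od h a a1 := ⟨rfl, hpar⟩
    have hbdiv : (b : ℕ) / h = a / h + 2 := by
      rw [hab', show (a : ℕ) + 2 * h = a + h + h by ring, div_add1 hh, div_add1 hh]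
    rw [S1_lower hM ha1]
    by_cases hb : (b : ℕ) + h < n
    · let b1 : Fin n := ⟨b + h, hb⟩
      have hb1 : Od h b b1 := ⟨rfl, by rw [hbdiv]; omega⟩
      rw [S1_lower hM hb1]
      exact min_le_min (hq a b hab) (hq a1 b1 (show (b : ℕ) + h = a + h + 2 * h by omega))
    · rw [S1_fix]
      · exact (min_le_left _ _).trans (hq a b hab)
      · intro c hc
        have := hc.1
        have := c.2
        omega
      · intro c hc
        have h1 := hc.1
        have h2 : (b : ℕ) / h = c / h + 1 := by rw [h1, div_add1 hh]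
        have h3 := hc.2
        omega

lemma div2 (a h : ℕ) : a / (2 * h) = a / h / 2 := by
  rw [Nat.div_div_eq_div_mul, mul_comm]

/-- exchanges at distance `2h` preserve the even relation at distance `h` -/
lemma clo_ev_ev2 {n h : ℕ} (hh : 0 < h) (R' : ℕ → ℕ → Prop) : Clo n (Ev h) R' (Ev (2 * h)) := by
  intro q hq _ a b hab
  have hh2 : 0 < 2 * h := by omega
  have hM := ev_match hh2
  obtain ⟨hab1, hab2⟩ := hab
  have hbdiv : (b : ℕ) / h = a / h + 1 := by rw [hab1, div_add1 hh]
  have hda := div2 (a : ℕ) h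
  have hdb := div2 (b : ℕ) h
  have hbn := b.2
  have hle : q a ≤ q b := hq a b ⟨hab1, hab2⟩
  have hev : ∀ c : ℕ, (c / h) % 2 = 0 → ((c + 2 * h) / h) % 2 = 0 := by
    intro c hc
    rw [show c + 2 * h = c + h + h by ring, div_add1 hh, div_add1 hh]; omega
  rcases Nat.mod_two_eq_zero_or_one ((a : ℕ) / (2 * h)) with hpar | hpar
  · have hparb : ((b : ℕ) / (2 * h)) % 2 = 0 := by omega
    have hupb : ∀ c : Fin n, ¬ Ev (2 * h) c b := by
      intro c hc
      have h1 := hc.1
      have h2 : (b : ℕ) / (2 * h) = c / (2 * h) + 1 := by rw [h1, div_add1 hh2]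
      have h3 := hc.2
      omega
    have hupa : ∀ c : Fin n, ¬ Ev (2 * h) c a := by
      intro c hc
      have h1 := hc.1
      have h2 : (a : ℕ) / (2 * h) = c / (2 * h) + 1 := by rw [h1, div_add1 hh2]
      have h3 := hc.2
      omega
    by_cases hb : (b : ℕ) + 2 * h < n
    · let b1 : Fin n := ⟨b + 2 * h, hb⟩
      let a1 : Fin n := ⟨a + 2 * h, by omega⟩
      have hb1 : Ev (2 * h) b b1 := ⟨rfl, hparb⟩
      have ha1 : Ev (2 * h) a a1 := ⟨rfl, hpar⟩
      rw [S1_lower hM ha1, S1_lower hM hb1]
      refine min_le_min hle (hq a1 b1 ⟨?_, hev _ hab2⟩)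
      show (b : ℕ) + 2 * h = a + 2 * h + h
      omega
    · rw [S1_fix (a := b)]
      · by_cases ha : (a : ℕ) + 2 * h < n
        · let a1 : Fin n := ⟨a + 2 * h, ha⟩
          have ha1 : Ev (2 * h) a a1 := ⟨rfl, hpar⟩
          rw [S1_lower hM ha1]
          exact (min_le_left _ _).trans hle
        · rw [S1_fix]
          · exact hle
          · intro c hc
            have := hc.1
            have := c.2
            omega
          · exact hupa
      · intro c hc
        have := hc.1
        have := c.2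
        omega
      · exact hupb
  · have hha : 2 * h ≤ (a : ℕ) := le_of_div_pos' (by omega)
    have hhb : 2 * h ≤ (b : ℕ) := by omega
    have hparb : ((b : ℕ) / (2 * h)) % 2 = 1 := by omega
    let a1 : Fin n := ⟨a - 2 * h, by omega⟩
    let b1 : Fin n := ⟨b - 2 * h, by omega⟩
    have ha1 : Ev (2 * h) a1 a := by
      have h1 : (a : ℕ) = (a - 2 * h) + 2 * h := by omega
      refine ⟨h1, ?_⟩
      have h2 : (a : ℕ) / (2 * h) = ((a : ℕ) - 2 * h) / (2 * h) + 1 := by
        conv_lhs => rw [h1]
        exact div_add1 hh2 _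
      show (((a : ℕ) - 2 * h) / (2 * h)) % 2 = 0
      omega
    have hb1 : Ev (2 * h) b1 b := by
      have h1 : (b : ℕ) = (b - 2 * h) + 2 * h := by omega
      refine ⟨h1, ?_⟩
      have h2 : (b : ℕ) / (2 * h) = ((b : ℕ) - 2 * h) / (2 * h) + 1 := by
        conv_lhs => rw [h1]
        exact div_add1 hh2 _
      show (((b : ℕ) - 2 * h) / (2 * h)) % 2 = 0
      omega
    rw [S1_upper hM ha1, S1_upper hM hb1]
    refine max_le_max hle (hq a1 b1 ⟨?_, ?_⟩)
    · show (b : ℕ) - 2 * h = a - 2 * h + h
      omega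
    · show (((a : ℕ) - 2 * h) / h) % 2 = 0
      have h1 : (a : ℕ) / h = ((a : ℕ) - 2 * h) / h + 2 := by
        conv_lhs => rw [show (a : ℕ) = (a - 2 * h) + h + h by omega]
        rw [div_add1 hh, div_add1 hh]
      omega

lemma clo_ev_od2 {n h : ℕ} (hh : 0 < h) (R' : ℕ → ℕ → Prop) : Clo n (Ev h) R' (Od (2 * h)) := by
  intro q hq _ a b hab
  have hh2 : 0 < 2 * h := by omega
  have hM := od_match hh2
  obtain ⟨hab1, hab2⟩ := hab
  have hbdiv : (b : ℕ) / h = a / h + 1 := by rw [hab1, div_add1 hh]
  have hda := div2 (a : ℕ) h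
  have hdb := div2 (b : ℕ) h
  have hbn := b.2
  have hle : q a ≤ q b := hq a b ⟨hab1, hab2⟩
  have hev : ∀ c : ℕ, (c / h) % 2 = 0 → ((c + 2 * h) / h) % 2 = 0 := by
    intro c hc
    rw [show c + 2 * h = c + h + h by ring, div_add1 hh, div_add1 hh]; omega
  rcases Nat.mod_two_eq_zero_or_one ((a : ℕ) / (2 * h)) with hpar | hpar
  · have hparb : ((b : ℕ) / (2 * h)) % 2 = 0 := by omega
    by_cases hha : 2 * h ≤ (a : ℕ)
    · have hhb : 2 * h ≤ (b : ℕ) := by omega
      let a1 : Fin n := ⟨a - 2 * h, by omega⟩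
      let b1 : Fin n := ⟨b - 2 * h, by omega⟩
      have ha1 : Od (2 * h) a1 a := by
        have h1 : (a : ℕ) = (a - 2 * h) + 2 * h := by omega
        refine ⟨h1, ?_⟩
        have h2 : (a : ℕ) / (2 * h) = ((a : ℕ) - 2 * h) / (2 * h) + 1 := by
          conv_lhs => rw [h1]
          exact div_add1 hh2 _
        show (((a : ℕ) - 2 * h) / (2 * h)) % 2 = 1
        omega
      have hb1 : Od (2 * h) b1 b := by
        have h1 : (b : ℕ) = (b - 2 * h) + 2 * h := by omega
        refine ⟨h1, ?_⟩
        have h2 : (b : ℕ) / (2 * h) = ((b : ℕ) - 2 * h) / (2 * h) + 1 := by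
          conv_lhs => rw [h1]
          exact div_add1 hh2 _
        show (((b : ℕ) - 2 * h) / (2 * h)) % 2 = 1
        omega
      rw [S1_upper hM ha1, S1_upper hM hb1]
      refine max_le_max hle (hq a1 b1 ⟨?_, ?_⟩)
      · show (b : ℕ) - 2 * h = a - 2 * h + h
        omega
      · show (((a : ℕ) - 2 * h) / h) % 2 = 0
        have h1 : (a : ℕ) / h = ((a : ℕ) - 2 * h) / h + 2 := by
          conv_lhs => rw [show (a : ℕ) = (a - 2 * h) + h + h by omega]
          rw [div_add1 hh, div_add1 hh]
        omega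
    · have ha0 : (a : ℕ) / (2 * h) = 0 := Nat.div_eq_of_lt (by omega)
      have hb0 : (b : ℕ) / (2 * h) = 0 := by omega
      have hb2 : (b : ℕ) < 2 * h := by
        by_contra hc
        have := Nat.div_pos (not_lt.mp hc) hh2
        omega
      rw [S1_fix (a := a), S1_fix (a := b)]
      · exact hle
      · intro c hc
        have := hc.2
        omega
      · intro c hc
        have := hc.1
        omega
      · intro c hc
        have := hc.2
        omega
      · intro c hc
        have := hc.1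
        omega
  · have hparb : ((b : ℕ) / (2 * h)) % 2 = 1 := by omega
    have hupb : ∀ c : Fin n, ¬ Od (2 * h) c b := by
      intro c hc
      have h1 := hc.1
      have h2 : (b : ℕ) / (2 * h) = c / (2 * h) + 1 := by rw [h1, div_add1 hh2]
      have h3 := hc.2
      omega
    have hupa : ∀ c : Fin n, ¬ Od (2 * h) c a := by
      intro c hc
      have h1 := hc.1
      have h2 : (a : ℕ) / (2 * h) = c / (2 * h) + 1 := by rw [h1, div_add1 hh2]
      have h3 := hc.2
      omega
    by_cases hb : (b : ℕ) + 2 * h < n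
    · let b1 : Fin n := ⟨b + 2 * h, hb⟩
      let a1 : Fin n := ⟨a + 2 * h, by omega⟩
      have hb1 : Od (2 * h) b b1 := ⟨rfl, hparb⟩
      have ha1 : Od (2 * h) a a1 := ⟨rfl, hpar⟩
      rw [S1_lower hM ha1, S1_lower hM hb1]
      refine min_le_min hle (hq a1 b1 ⟨?_, hev _ hab2⟩)
      show (b : ℕ) + 2 * h = a + 2 * h + h
      omega
    · rw [S1_fix (a := b)]
      · by_cases ha : (a : ℕ) + 2 * h < n
        · let a1 : Fin n := ⟨a + 2 * h, ha⟩
          have ha1 : Od (2 * h) a a1 := ⟨rfl, hpar⟩
          rw [S1_lower hM ha1]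
          exact (min_le_left _ _).trans hle
        · rw [S1_fix]
          · exact hle
          · intro c hc
            have := hc.1
            have := c.2
            omega
          · exact hupa
      · intro c hc
        have := hc.1
        have := c.2
        omega
      · exact hupb

/-- exchanging one odd block with the next one -/
lemma clo_ev_sg {n h : ℕ} (hh : 0 < h) {j : ℕ} (hj : j % 2 = 1) :
    Clo n (Ev h) (Fl (2 * h)) (Sg h j) := by
  intro q hq hq' a b hab
  have hM := sg_match hh j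
  obtain ⟨hab1, hab2⟩ := hab
  have hbdiv : (b : ℕ) / h = a / h + 1 := by rw [hab1, div_add1 hh]
  have hbn := b.2
  have hle : q a ≤ q b := hq a b ⟨hab1, hab2⟩
  by_cases hc1 : (a : ℕ) / h = j + 1
  · -- `a` is upper, `b` unmatched
    have hha : h ≤ (a : ℕ) := le_of_div_pos' (by omega)
    let a1 : Fin n := ⟨a - h, by omega⟩
    have ha1 : Sg h j a1 a := by
      have h1 : (a : ℕ) = (a - h) + h := by omega
      refine ⟨h1, ?_⟩
      have h2 : (a : ℕ) / h = ((a : ℕ) - h) / h + 1 := by
        conv_lhs => rw [h1]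
        exact div_add1 hh _
      show ((a : ℕ) - h) / h = j
      omega
    rw [S1_upper hM ha1, S1_fix]
    · apply max_le hle
      apply hq' a1 b
      show (b : ℕ) = a - h + 2 * h
      omega
    · intro c hc
      have := hc.2
      omega
    · intro c hc
      have h1 := hc.1
      have h2 : (b : ℕ) / h = c / h + 1 := by rw [h1, div_add1 hh]
      have h3 := hc.2
      omega
  · have hfa : S1 (Sg h j) q a = q a := by
      apply S1_fix
      · intro c hc
        have := hc.2
        omega
      · intro c hc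
        have h1 := hc.1
        have h2 : (a : ℕ) / h = c / h + 1 := by rw [h1, div_add1 hh]
        have h3 := hc.2
        omega
    rw [hfa]
    by_cases hc2 : (b : ℕ) / h = j
    · by_cases hb : (b : ℕ) + h < n
      · let b1 : Fin n := ⟨b + h, hb⟩
        have hb1 : Sg h j b b1 := ⟨rfl, hc2⟩
        rw [S1_lower hM hb1]
        apply le_min hle
        apply hq' a b1
        show (b : ℕ) + h = a + 2 * h
        omega
      · rw [S1_fix]
        · exact hle
        · intro c hc
          have := hc.1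
          have := c.2
          omega
        · intro c hc
          have h1 := hc.1
          have h2 : (b : ℕ) / h = c / h + 1 := by rw [h1, div_add1 hh]
          have h3 := hc.2
          omega
    · rw [S1_fix]
      · exact hle
      · intro c hc
        exact hc2 hc.2
      · intro c hc
        have h1 := hc.1
        have h2 : (b : ℕ) / h = c / h + 1 := by rw [h1, div_add1 hh]
        have h3 := hc.2
        omega

section scale
variable {ι : Type*} [DecidableEq ι] [Fintype ι] {n : ℕ}

omit [Fintype ι] in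
lemma cn_fl_eq {h : ℕ} : Cn ι n (Ev h) ∩ Cn ι n (Od h) ⊆ Cn ι n (Fl h) := by
  rintro p ⟨h1, h2⟩ i x v hv
  rcases Nat.mod_two_eq_zero_or_one ((x i : ℕ) / h) with hpar | hpar
  · exact h1 i x v ⟨hv, hpar⟩
  · exact h2 i x v ⟨hv, hpar⟩

omit [Fintype ι] in
lemma cn_fl_sub_ev {h : ℕ} : Cn ι n (Fl h) ⊆ Cn ι n (Ev h) :=
  fun _ hp i x v hv => hp i x v hv.1

omit [Fintype ι] in
lemma cn_fl_sub_od {h : ℕ} : Cn ι n (Fl h) ⊆ Cn ι n (Od h) :=
  fun _ hp i x v hv => hp i x v hv.1

/-- one step of the multiscale argument -/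
theorem scale_step {h : ℕ} (hh : 0 < h) {f : EuclideanSpace ℝ (ι → Fin n)} {r s t : ℝ}
    (h1 : Near (Cn ι n (Fl (2 * h))) f r) (h2 : Near (Cn ι n (Ev h)) f s)
    (h3 : Near (Cn ι n (Od h)) f t) : Near (Cn ι n (Fl h)) f (s + (r + t)) := by
  have step1 : Near (Cn ι n (Fl (2 * h)) ∩ Cn ι n (Od h)) f (r + t) := by
    apply Near.inter (Cn_closed _) (Cn_convex _) _ h1 h3
    intro g p hp hg
    exact proj_pres (od_match hh) (clo_fl_od hh (fun _ _ => False)) hp
      (fun _ _ _ hv => hv.elim) hg
  have step2 : Near (Cn ι n (Ev h) ∩ (Cn ι n (Fl (2 * h)) ∩ Cn ι n (Od h))) f (s + (r + t)) := by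
    apply Near.inter (Cn_closed _) (Cn_convex _) _ h2 step1
    intro g p hp hg
    have hh2 : 0 < 2 * h := by omega
    have hfl : p ∈ Cn ι n (Fl (2 * h)) := by
      apply cn_fl_eq
      constructor
      · exact proj_pres (ev_match hh2) (clo_ev_ev2 hh (fun _ _ => False)) hp
          (fun _ _ _ hv => hv.elim) (cn_fl_sub_ev hg.1)
      · exact proj_pres (od_match hh2) (clo_ev_od2 hh (fun _ _ => False)) hp
          (fun _ _ _ hv => hv.elim) (cn_fl_sub_od hg.1)
    refine ⟨hfl, ?_⟩
    intro i x v hv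
    have hsg : g ∈ Cn ι n (Sg h ((x i : ℕ) / h)) := by
      intro i' x' v' hv'
      apply hg.2 i' x' v'
      refine ⟨hv'.1, ?_⟩
      rw [hv'.2]
      exact hv.2
    have := proj_pres (sg_match hh _) (clo_ev_sg hh hv.2) hp hfl hsg
    exact this i x v ⟨hv.1, rfl⟩
  exact step2.mono (fun p hp => cn_fl_eq ⟨hp.1, hp.2.2⟩) le_rfl

theorem scale_chain {f : EuclideanSpace ℝ (ι → Fin n)} {D : ℝ} (L : ℕ) (hL : n ≤ 2 ^ L)
    (hE : ∀ k < L, Near (Cn ι n (Ev (2 ^ k))) f D) (hO : ∀ k < L, Near (Cn ι n (Od (2 ^ k))) f D) :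
    ∀ m ≤ L, Near (Cn ι n (Fl (2 ^ (L - m)))) f (2 * m * D) := by
  intro m
  induction m with
  | zero =>
    intro _
    refine ⟨f, ?_, by simp⟩
    intro i x v hv
    have h1 : (v : ℕ) = (x i : ℕ) + 2 ^ (L - 0) := hv
    have h2 := v.2
    rw [Nat.sub_zero] at h1
    omega
  | succ m ih =>
    intro hm
    have h1 := ih (by omega)
    have hk : L - m = (L - (m + 1)) + 1 := by omega
    rw [hk, pow_succ, mul_comm (2 ^ (L - (m + 1))) 2] at h1
    have h2 := scale_step (pow_pos (by norm_num) _) h1 (hE (L - (m + 1)) (by omega))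
      (hO (L - (m + 1)) (by omega))
    refine h2.mono (fun _ h => h) ?_
    push_cast
    linarith

omit [Fintype ι] in
/-- membership at scale one is monotonicity -/
lemma mono_of_fl_one {p : EuclideanSpace ℝ (ι → Fin n)} (hp : p ∈ Cn ι n (Fl 1)) :
    ∀ (i : ι) (x : ι → Fin n) (v : Fin n), x i ≤ v → p x ≤ p (Function.update x i v) := by
  intro i x v hv
  have key : ∀ (k : ℕ) (w : Fin n), (w : ℕ) = (x i : ℕ) + k → p x ≤ p (Function.update x i w) := by
    intro k
    induction k with
    | zero =>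
      intro w hw
      have : w = x i := Fin.ext (by omega)
      rw [this, Function.update_eq_self]
    | succ k ih =>
      intro w hw
      have hwn := w.2
      let w' : Fin n := ⟨(x i : ℕ) + k, by omega⟩
      have h1 := ih w' rfl
      have h2 := hp i (Function.update x i w') w (by
        rw [Function.update_self]
        show (w : ℕ) = (x i : ℕ) + k + 1
        omega)
      rw [Function.update_idem] at h2
      exact h1.trans h2
  have hle : (x i : ℕ) ≤ v := hv
  exact key ((v : ℕ) - x i) v (by omega)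

end scale

end CT
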