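import Pool.Agent.Helper24.CT.Cube

/-! Compare-exchange (sorting) along the directions of a product of matchings. -/

namespace CT

open Finset

/-- A finite set with commuting involutions (one for each direction); `up i x` says that `x` is
the upper point of its pair in direction `i`. -/
structure Sys (X ι : Type*) where
  fl : ι → X → X
  up : ι → X → Bool
  inv : ∀ i x, fl i (fl i x) = x
  comm : ∀ i j x, fl i (fl j x) = fl j (fl i x)
  up_ne : ∀ i j x, j ≠ i → up i (fl j x) = up i x
  up_fl : ∀ i x, fl i x ≠ x → up i (fl i x) = !up i x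

namespace Sys

variable {X ι : Type*} (S : Sys X ι)

/-- compare-exchange in direction `i`. -/
noncomputable def srt (i : ι) (g : X → ℝ) : X → ℝ := fun x =>
  if S.up i x then max (g x) (g (S.fl i x)) else min (g x) (g (S.fl i x))

/-- sort along a list of directions (the first one first). -/
noncomputable def sortL : List ι → (X → ℝ) → (X → ℝ)
  | [], g => g
  | j :: L, g => sortL L (S.srt j g)

@[simp] lemma sortL_nil (g : X → ℝ) : S.sortL [] g = g := rfl
@[simp] lemma sortL_cons (j : ι) (L : List ι) (g : X → ℝ) :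
    S.sortL (j :: L) g = S.sortL L (S.srt j g) := rfl

lemma sortL_append (L M : List ι) (g : X → ℝ) :
    S.sortL (L ++ M) g = S.sortL M (S.sortL L g) := by
  induction L generalizing g with
  | nil => rfl
  | cons j L ih => simp [ih]

section sums
variable [Fintype X]

lemma sum_fl (i : ι) (F : X → ℝ) : ∑ x, F (S.fl i x) = ∑ x, F x := by
  have : Function.Involutive (S.fl i) := S.inv i
  exact Equiv.sum_comp (this.toPerm _) F

lemma pair_sum_le (i : ι) {F G : X → ℝ}
    (h : ∀ x, F x + F (S.fl i x) ≤ G x + G (S.fl i x)) : ∑ x, F x ≤ ∑ x, G x := by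
  have h1 := S.sum_fl i F
  have h2 := S.sum_fl i G
  have h3 : ∑ x, (F x + F (S.fl i x)) ≤ ∑ x, (G x + G (S.fl i x)) :=
    Finset.sum_le_sum (fun x _ => h x)
  rw [Finset.sum_add_distrib, Finset.sum_add_distrib] at h3
  linarith

lemma pair_sum_eq (i : ι) {F G : X → ℝ}
    (h : ∀ x, F x + F (S.fl i x) = G x + G (S.fl i x)) : ∑ x, F x = ∑ x, G x :=
  le_antisymm (S.pair_sum_le i (fun x => (h x).le)) (S.pair_sum_le i (fun x => (h x).ge))

end sums

/-- case analysis for `srt`: either `x` is a fixed point, or the two values at `x` and its partner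
are min/max. -/
lemma srt_cases (i : ι) (x : X) :
    (S.fl i x = x ∧ ∀ g : X → ℝ, S.srt i g x = g x) ∨
    (∀ g : X → ℝ, S.srt i g x = min (g x) (g (S.fl i x)) ∧
      S.srt i g (S.fl i x) = max (g x) (g (S.fl i x))) ∨
    (∀ g : X → ℝ, S.srt i g x = max (g x) (g (S.fl i x)) ∧
      S.srt i g (S.fl i x) = min (g x) (g (S.fl i x))) := by
  by_cases hx : S.fl i x = x
  · left
    refine ⟨hx, fun g => ?_⟩
    unfold srt
    rw [hx]
    simp
  · right
    have hup := S.up_fl i x hx
    cases hu : S.up i x with
    | false =>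
      left
      intro g
      rw [hu] at hup
      constructor
      · simp [srt, hu]
      · simp [srt, hup, S.inv, max_comm]
    | true =>
      right
      intro g
      rw [hu] at hup
      constructor
      · simp [srt, hu]
      · simp [srt, hup, S.inv, min_comm]

/-- sorting commutes with monotone maps. -/
lemma srt_comp {φ : ℝ → ℝ} (hφ : Monotone φ) (i : ι) (g : X → ℝ) :
    S.srt i (fun x => φ (g x)) = fun x => φ (S.srt i g x) := by
  funext x
  unfold srt
  split_ifs
  · exact (hφ.map_max).symm
  · exact (hφ.map_min).symm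

lemma sortL_comp {φ : ℝ → ℝ} (hφ : Monotone φ) (L : List ι) (g : X → ℝ) :
    S.sortL L (fun x => φ (g x)) = fun x => φ (S.sortL L g x) := by
  induction L generalizing g with
  | nil => rfl
  | cons j L ih => rw [sortL_cons, sortL_cons, srt_comp S hφ, ih]

/-- pointwise properties are preserved by sorting -/
lemma sortL_prop {P : ℝ → Prop} (L : List ι) (g : X → ℝ) (h : ∀ x, P (g x)) :
    ∀ x, P (S.sortL L g x) := by
  induction L generalizing g with
  | nil => exact h
  | cons j L ih =>
    rw [sortL_cons]
    apply ih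
    intro x
    unfold srt
    split_ifs
    · rcases max_choice (g x) (g (S.fl j x)) with h1 | h1 <;> rw [h1] <;> apply h
    · rcases min_choice (g x) (g (S.fl j x)) with h1 | h1 <;> rw [h1] <;> apply h

section sums
variable [Fintype X]

lemma sum_srt (φ : ℝ → ℝ) (i : ι) (g : X → ℝ) : ∑ x, φ (S.srt i g x) = ∑ x, φ (g x) := by
  apply S.pair_sum_eq i
  intro x
  rcases S.srt_cases i x with ⟨h1, h2⟩ | h | h
  · rw [h1, h2]
  · rw [(h g).1, (h g).2]
    rcases le_total (g x) (g (S.fl i x)) with h | h <;> simp [h]
    ring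
  · rw [(h g).1, (h g).2]
    rcases le_total (g x) (g (S.fl i x)) with h | h <;> simp [h]
    ring

lemma sum_sortL (φ : ℝ → ℝ) (L : List ι) (g : X → ℝ) :
    ∑ x, φ (S.sortL L g x) = ∑ x, φ (g x) := by
  induction L generalizing g with
  | nil => rfl
  | cons j L ih => rw [sortL_cons, ih, sum_srt]

/-- A two-variable cost for which compare-exchange is a contraction. -/
def Good (k : ℝ → ℝ → ℝ) : Prop :=
  ∀ a b c d : ℝ, k (min a b) (min c d) + k (max a b) (max c d) ≤ k a c + k b d

lemma good_srt {k : ℝ → ℝ → ℝ} (hk : Good k) (i : ι) (p q : X → ℝ) :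
    ∑ x, k (S.srt i p x) (S.srt i q x) ≤ ∑ x, k (p x) (q x) := by
  apply S.pair_sum_le i
  intro x
  rcases S.srt_cases i x with ⟨h1, h2⟩ | h | h
  · rw [h1, h2, h2]
  · rw [(h p).1, (h q).1, (h p).2, (h q).2]
    exact hk _ _ _ _
  · rw [(h p).1, (h q).1, (h p).2, (h q).2]
    have := hk (p x) (p (S.fl i x)) (q x) (q (S.fl i x))
    linarith

lemma good_sortL {k : ℝ → ℝ → ℝ} (hk : Good k) (L : List ι) (p q : X → ℝ) :
    ∑ x, k (S.sortL L p x) (S.sortL L q x) ≤ ∑ x, k (p x) (q x) := by
  induction L generalizing p q with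
  | nil => exact le_rfl
  | cons j L ih =>
    rw [sortL_cons, sortL_cons]
    exact (ih _ _).trans (good_srt S hk j p q)

end sums

end Sys

/-- `min(u^+, v^-)`. -/
noncomputable def cc (u v : ℝ) : ℝ := max (min u (-v)) 0

lemma cc_nonneg (u v : ℝ) : 0 ≤ cc u v := le_max_right _ _

lemma cc_self (u : ℝ) : cc u u = 0 := by
  unfold cc
  rcases le_total u 0 with h | h
  · exact max_eq_right ((min_le_left _ _).trans h)
  · exact max_eq_right ((min_le_right _ _).trans (by linarith))

lemma cc_le_of_le {u v : ℝ} (h : u ≤ v) : cc u v = 0 := by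
  unfold cc
  rcases le_total u 0 with h1 | h1
  · exact max_eq_right ((min_le_left _ _).trans h1)
  · exact max_eq_right ((min_le_right _ _).trans (by linarith))

lemma cc_mono_left {u u' v : ℝ} (h : u ≤ u') : cc u v ≤ cc u' v := by
  unfold cc
  gcongr

lemma cc_anti_right {u v v' : ℝ} (h : v ≤ v') : cc u v' ≤ cc u v := by
  unfold cc
  gcongr

/-- submodularity for opposite orders -/
lemma cc_cross {a b c d : ℝ} (hab : a ≤ b) (hdc : d ≤ c) :
    cc a d + cc b c ≤ cc a c + cc b d := by
  unfold cc
  rcases le_total a (-d) with h1 | h1 <;> rcases le_total b (-c) with h2 | h2 <;>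
  rcases le_total a (-c) with h3 | h3 <;> rcases le_total b (-d) with h4 | h4 <;>
  simp only [h1, h2, h3, h4, min_eq_left, min_eq_right] <;>
  simp only [max_def] <;> split_ifs <;> linarith

lemma good_cc : Sys.Good cc := by
  intro a b c d
  rcases le_total a b with h1 | h1 <;> rcases le_total c d with h2 | h2 <;>
  simp only [h1, h2, min_eq_left, min_eq_right, max_eq_left, max_eq_right]
  · exact le_rfl
  · exact cc_cross h1 h2
  · have := cc_cross h1 h2
    linarith
  · linarith

/-- symmetrised cost. -/
noncomputable def kk (u v : ℝ) : ℝ := cc u v + cc v u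

lemma kk_nonneg (u v : ℝ) : 0 ≤ kk u v := add_nonneg (cc_nonneg _ _) (cc_nonneg _ _)

lemma kk_self (u : ℝ) : kk u u = 0 := by simp [kk, cc_self]

lemma kk_comm (u v : ℝ) : kk u v = kk v u := by unfold kk; ring

lemma good_kk : Sys.Good kk := by
  intro a b c d
  have h1 := good_cc a b c d
  have h2 := good_cc c d a b
  unfold kk
  linarith

lemma good_abs : Sys.Good (fun u v => |u - v|) := by
  intro a b c d
  simp only
  rcases le_total a b with h1 | h1 <;> rcases le_total c d with h2 | h2 <;>
  simp only [h1, h2, min_eq_left, min_eq_right, max_eq_left, max_eq_right]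
  · exact le_rfl
  · rcases abs_cases (a - d) with h3 | h3 <;> rcases abs_cases (b - c) with h4 | h4 <;>
    rcases abs_cases (a - c) with h5 | h5 <;> rcases abs_cases (b - d) with h6 | h6 <;> linarith
  · rcases abs_cases (b - c) with h3 | h3 <;> rcases abs_cases (a - d) with h4 | h4 <;>
    rcases abs_cases (a - c) with h5 | h5 <;> rcases abs_cases (b - d) with h6 | h6 <;> linarith
  · linarith

/-- value of the symmetrised cost when the signs differ -/
lemma le_kk_of_signs {u v : ℝ} (h : 0 < u ∧ v ≤ 0 ∨ u ≤ 0 ∧ 0 < v) (habs : |u| ≤ |v|) :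
    |u| ≤ kk u v := by
  unfold kk
  rcases h with ⟨h1, h2⟩ | ⟨h1, h2⟩
  · rw [abs_of_pos h1, abs_of_nonpos h2] at *
    have : u ≤ cc u v := by
      unfold cc
      exact (le_min le_rfl habs).trans (le_max_left _ _)
    linarith [cc_nonneg v u]
  · rw [abs_of_nonpos h1, abs_of_pos h2] at *
    have : -u ≤ cc v u := by
      unfold cc
      exact (le_min habs le_rfl).trans (le_max_left _ _)
    linarith [cc_nonneg u v]

namespace Sys

variable {X ι : Type*} (S : Sys X ι) [Fintype X]

/-- cost of the violations in direction `i` -/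
noncomputable def cost (i : ι) (g : X → ℝ) : ℝ :=
  ∑ x, if S.up i x = false then cc (g x) (g (S.fl i x)) else 0

lemma cost_srt_ne {i j : ι} (hij : j ≠ i) (g : X → ℝ) : S.cost i (S.srt j g) ≤ S.cost i g := by
  unfold cost
  apply S.pair_sum_le j
  intro x
  have hup : S.up i (S.fl j x) = S.up i x := S.up_ne i j x hij
  have hcomm : S.fl i (S.fl j x) = S.fl j (S.fl i x) := S.comm i j x
  have hup2 : S.up j (S.fl i x) = S.up j x := S.up_ne j i x (Ne.symm hij)
  rw [hup]
  by_cases hu : S.up i x = false
  · simp only [hu, if_true]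
    have e1 : S.srt j g x = if S.up j x then max (g x) (g (S.fl j x)) else
      min (g x) (g (S.fl j x)) := rfl
    have e2 : S.srt j g (S.fl i x) = if S.up j x then
        max (g (S.fl i x)) (g (S.fl j (S.fl i x))) else
        min (g (S.fl i x)) (g (S.fl j (S.fl i x))) := by
      unfold srt
      rw [hup2]
    by_cases hx : S.fl j x = x
    · rw [hcomm, hx]
      have h3 : S.fl j (S.fl i x) = S.fl i x := by rw [← hcomm, hx]
      rw [h3, e1, e2, hx, h3]
      simp
    · have hupj := S.up_fl j x hx
      have e3 : S.srt j g (S.fl j x) = if S.up j x then min (g x) (g (S.fl j x)) else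
        max (g x) (g (S.fl j x)) := by
        unfold srt
        rw [hupj, S.inv]
        cases S.up j x <;> simp [max_comm, min_comm]
      have e4 : S.srt j g (S.fl i (S.fl j x)) = if S.up j x then
          min (g (S.fl i x)) (g (S.fl j (S.fl i x))) else
          max (g (S.fl i x)) (g (S.fl j (S.fl i x))) := by
        have h5 : S.up j (S.fl j (S.fl i x)) = !S.up j x := by
          rw [← hcomm, S.up_ne j i (S.fl j x) (Ne.symm hij), hupj]
        rw [hcomm]
        unfold srt
        rw [S.inv, h5]
        cases S.up j x <;> simp [max_comm, min_comm]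
      rw [e1, e2, e3, e4, hcomm]
      have := good_cc (g x) (g (S.fl j x)) (g (S.fl i x)) (g (S.fl j (S.fl i x)))
      cases S.up j x
      · simpa using this
      · simp only [if_true]
        linarith
  · simp [hu]

end Sys
end CT
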