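import Pool.Agent.Helper24.CT.Scale

/-! Spreading the displacement `4B` over squares. -/

namespace CT

open Finset

/-- `(a, a + 4B)` with `a / B` in a fixed class modulo `8` -/
def Rs (B c a b : ℕ) : Prop := b = a + 4 * B ∧ (a / B) % 8 = c

/-- the first side of the squares -/
def Sq (B c ρ x y : ℕ) : Prop := (x / B) % 8 = c ∧ y / B = x / B + 1 ∧ y % B = (x % B + ρ) % B

def M1 (B c ρ a b : ℕ) : Prop := Sq B c ρ a b ∨ ∃ x y, Sq B c ρ x y ∧ a = y + B ∧ b = x + 4 * B

def M2 (B c ρ a b : ℕ) : Prop :=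
  ∃ x y, Sq B c ρ x y ∧ ((a = x ∧ b = y + B) ∨ (a = y ∧ b = x + 4 * B))

lemma div_add4 {B : ℕ} (hB : 0 < B) (x : ℕ) : (x + 4 * B) / B = x / B + 4 := by
  rw [show x + 4 * B = x + B + B + B + B by ring, div_add1 hB, div_add1 hB, div_add1 hB,
    div_add1 hB]

lemma lt_of_div_lt {B a b : ℕ} (h : a / B < b / B) : a < b := by
  by_contra hc
  exact absurd (Nat.div_le_div_right (c := B) (not_lt.mp hc)) (not_le.mpr h)

lemma eq_of_div_mod {B a b : ℕ} (h1 : a / B = b / B) (h2 : a % B = b % B) : a = b := by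
  rw [← Nat.div_add_mod a B, ← Nat.div_add_mod b B, h1, h2]

lemma add_mod_inj {B r r' ρ : ℕ} (h : (r % B + ρ) % B = (r' % B + ρ) % B) : r % B = r' % B := by
  have h1 : r % B + ρ ≡ r' % B + ρ [MOD B] := h
  have h2 := Nat.ModEq.add_right_cancel' ρ h1
  have h3 : r % B % B = r' % B % B := h2
  rwa [Nat.mod_mod, Nat.mod_mod] at h3

section sq
variable {B c ρ : ℕ}

lemma Sq.right {x y y' : ℕ} (h : Sq B c ρ x y) (h' : Sq B c ρ x y') : y = y' :=
  eq_of_div_mod (h.2.1.trans h'.2.1.symm) (h.2.2.trans h'.2.2.symm)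

lemma Sq.left {x x' y : ℕ} (h : Sq B c ρ x y) (h' : Sq B c ρ x' y) : x = x' := by
  apply eq_of_div_mod (B := B)
  · have := h.2.1
    have := h'.2.1
    omega
  · exact add_mod_inj (h.2.2.symm.trans h'.2.2)

lemma m1_match (hB : 0 < B) (_hc : c < 8) : IsMatch (M1 B c ρ) where
  lt := by
    rintro a b (h | ⟨x, y, h, rfl, rfl⟩)
    · apply lt_of_div_lt (B := B)
      have := h.2.1
      omega
    · apply lt_of_div_lt (B := B)
      rw [div_add1 hB, div_add4 hB]
      have := h.2.1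
      omega
  right := by
    rintro a b b' (h | ⟨x, y, h, h1, h2⟩) (h' | ⟨x', y', h', h1', h2'⟩)
    · exact h.right h'
    · exfalso
      have e1 := h.1
      have e2 := h'.1
      have e3 := h'.2.1
      rw [h1', div_add1 hB] at e1
      omega
    · exfalso
      have e1 := h'.1
      have e2 := h.1
      have e3 := h.2.1
      rw [h1, div_add1 hB] at e1
      omega
    · have hy : y = y' := by omega
      subst hy
      have := h.left h'
      omega
  left := by
    rintro a a' b (h | ⟨x, y, h, h1, h2⟩) (h' | ⟨x', y', h', h1', h2'⟩)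
    · exact h.left h'
    · exfalso
      have e1 := h.1
      have e4 := h.2.1
      have e2 := h'.1
      have e3 := h'.2.1
      rw [h2', div_add4 hB] at e4
      omega
    · exfalso
      have e1 := h'.1
      have e4 := h'.2.1
      have e2 := h.1
      have e3 := h.2.1
      rw [h2, div_add4 hB] at e4
      omega
    · have hx : x = x' := by omega
      subst hx
      have := h.right h'
      omega
  disj := by
    rintro a b b' (h | ⟨x, y, h, h1, h2⟩) (h' | ⟨x', y', h', h1', h2'⟩)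
    · have e1 := h.1
      have e2 := h.2.1
      have e3 := h'.1
      omega
    · have e1 := h.1
      have e2 := h.2.1
      have e3 := h'.1
      have e4 := h'.2.1
      rw [h1', div_add1 hB] at e2
      omega
    · have e1 := h.1
      have e2 := h.2.1
      have e3 := h'.1
      rw [h2, div_add4 hB] at e3
      omega
    · have e1 := h.1
      have e2 := h.2.1
      have e3 := h'.1
      have e4 := h'.2.1
      have e5 : b / B = x / B + 4 := by rw [h2, div_add4 hB]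
      have e6 : b / B = y' / B + 1 := by rw [h1', div_add1 hB]
      omega

lemma m2_match (hB : 0 < B) (_hc : c < 8) : IsMatch (M2 B c ρ) where
  lt := by
    rintro a b ⟨x, y, h, (⟨rfl, rfl⟩ | ⟨rfl, rfl⟩)⟩
    · apply lt_of_div_lt (B := B)
      rw [div_add1 hB]
      have := h.2.1
      omega
    · apply lt_of_div_lt (B := B)
      rw [div_add4 hB]
      have := h.2.1
      omega
  right := by
    rintro a b b' ⟨x, y, h, (⟨h1, h2⟩ | ⟨h1, h2⟩)⟩ ⟨x', y', h', (⟨h1', h2'⟩ | ⟨h1', h2'⟩)⟩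
    · have hx : x = x' := by omega
      subst hx
      have := h.right h'
      omega
    · exfalso
      have e1 := h.1
      have e2 := h'.1
      have e3 := h'.2.1
      rw [← h1'] at e3
      rw [← h1] at e1
      omega
    · exfalso
      have e1 := h'.1
      have e2 := h.1
      have e3 := h.2.1
      rw [← h1] at e3
      rw [← h1'] at e1
      omega
    · have hy : y = y' := by omega
      subst hy
      have := h.left h'
      omega
  left := by
    rintro a a' b ⟨x, y, h, (⟨h1, h2⟩ | ⟨h1, h2⟩)⟩ ⟨x', y', h', (⟨h1', h2'⟩ | ⟨h1', h2'⟩)⟩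
    · have hy : y = y' := by omega
      subst hy
      have := h.left h'
      omega
    · exfalso
      have e1 := h.1
      have e2 := h.2.1
      have e3 := h'.1
      have e5 : b / B = y / B + 1 := by rw [h2, div_add1 hB]
      have e6 : b / B = x' / B + 4 := by rw [h2', div_add4 hB]
      omega
    · exfalso
      have e1 := h'.1
      have e2 := h'.2.1
      have e3 := h.1
      have e5 : b / B = y' / B + 1 := by rw [h2', div_add1 hB]
      have e6 : b / B = x / B + 4 := by rw [h2, div_add4 hB]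
      omega
    · have hx : x = x' := by omega
      subst hx
      have := h.right h'
      omega
  disj := by
    rintro a b b' ⟨x, y, h, h1⟩ ⟨x', y', h', h1'⟩
    have e1 := h.1
    have e2 := h.2.1
    have e3 := h'.1
    have e4 := h'.2.1
    have hb1 : b / B = x / B + 2 ∨ b / B = x / B + 4 := by
      rcases h1 with ⟨_, h2⟩ | ⟨_, h2⟩
      · left; rw [h2, div_add1 hB]; omega
      · right; rw [h2, div_add4 hB]
    have hb2 : b / B = x' / B ∨ b / B = x' / B + 1 := by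
      rcases h1' with ⟨h2, _⟩ | ⟨h2, _⟩
      · left; rw [h2]
      · right; rw [h2]; omega
    omega

end sq

lemma S1_le {n : ℕ} {M : ℕ → ℕ → Prop} (hM : IsMatch M) (q : Fin n → ℝ) {a : Fin n}
    (h : ∀ c : Fin n, ¬ M c a) : S1 M q a ≤ q a := by
  rcases sig_cases M a with ⟨b, hb⟩ | ⟨b, hb⟩ | ⟨h1, h2⟩
  · rw [S1_lower hM hb]; exact min_le_left _ _
  · exact absurd hb (h b)
  · rw [S1_fix h1 h2]

lemma clo_m1_m2 {n B c ρ : ℕ} (hB : 0 < B) (hc : c < 8) (R' : ℕ → ℕ → Prop) :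
    Clo n (M1 B c ρ) R' (M2 B c ρ) := by
  intro q hq _ a b hab
  have hM := m2_match (ρ := ρ) hB hc
  rcases id hab with h | ⟨x, y, h, h1, h2⟩
  · -- lower side of the square
    have e1 := h.1
    have e2 := h.2.1
    have hle : q a ≤ q b := hq a b hab
    have hupa : ∀ c' : Fin n, ¬ M2 B c ρ c' a := by
      rintro c' ⟨x', y', h', h1'⟩
      have e3 := h'.1
      have e4 := h'.2.1
      have hb1 : (a : ℕ) / B = x' / B + 2 ∨ (a : ℕ) / B = x' / B + 4 := by
        rcases h1' with ⟨_, h2⟩ | ⟨_, h2⟩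
        · left; rw [h2, div_add1 hB]; omega
        · right; rw [h2, div_add4 hB]
      omega
    have hbd : (b : ℕ) < B * ((a : ℕ) / B) + 2 * B := by
      have h3 := Nat.div_add_mod (b : ℕ) B
      have h4 := Nat.mod_lt (b : ℕ) hB
      rw [e2, mul_add, mul_one] at h3
      omega
    have had : B * ((a : ℕ) / B) ≤ a := Nat.mul_div_le _ _
    by_cases hn : (a : ℕ) + 4 * B < n
    · let b1 : Fin n := ⟨a + 4 * B, hn⟩
      let a1 : Fin n := ⟨b + B, by omega⟩
      have hb1 : M2 B c ρ b b1 := ⟨a, b, h, Or.inr ⟨rfl, rfl⟩⟩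
      have ha1 : M2 B c ρ a a1 := ⟨a, b, h, Or.inl ⟨rfl, rfl⟩⟩
      rw [S1_lower hM ha1, S1_lower hM hb1]
      refine min_le_min hle (hq a1 b1 (Or.inr ⟨a, b, h, rfl, rfl⟩))
    · rw [S1_fix (a := b)]
      · exact (S1_le hM q hupa).trans hle
      · intro c' hc'
        have hb1 : M2 B c ρ b ((a : ℕ) + 4 * B) := ⟨a, b, h, Or.inr ⟨rfl, rfl⟩⟩
        have := hM.right hc' hb1
        have := c'.2
        omega
      · rintro c' ⟨x', y', h', h1'⟩
        have e3 := h'.1
        have e4 := h'.2.1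
        have hb1 : (b : ℕ) / B = x' / B + 2 ∨ (b : ℕ) / B = x' / B + 4 := by
          rcases h1' with ⟨_, h2⟩ | ⟨_, h2⟩
          · left; rw [h2, div_add1 hB]; omega
          · right; rw [h2, div_add4 hB]
        omega
  · have e1 := h.1
    have e2 := h.2.1
    have hle : q a ≤ q b := hq a b hab
    have hbn := b.2
    have hbd : y < B * (x / B) + 2 * B := by
      have h3 := Nat.div_add_mod y B
      have h4 := Nat.mod_lt y hB
      rw [e2, mul_add, mul_one] at h3
      omega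
    have had : B * (x / B) ≤ x := Nat.mul_div_le _ _
    let a1 : Fin n := ⟨x, by omega⟩
    let b1 : Fin n := ⟨y, by omega⟩
    have ha1 : M2 B c ρ a1 a := ⟨x, y, h, Or.inl ⟨rfl, h1⟩⟩
    have hb1 : M2 B c ρ b1 b := ⟨x, y, h, Or.inr ⟨rfl, h2⟩⟩
    rw [S1_upper hM ha1, S1_upper hM hb1]
    exact max_le_max hle (hq a1 b1 (Or.inl h))

lemma rs_match {B c : ℕ} (hB : 0 < B) : IsMatch (Rs B c) where
  lt := fun h1 => by have := h1.1; omega
  right := fun h1 h2 => by have := h1.1; have := h2.1; omega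
  left := fun h1 h2 => by have := h1.1; have := h2.1; omega
  disj := by
    rintro a b b' ⟨h1, h2⟩ ⟨h3, h4⟩
    rw [h1, div_add4 hB] at h4
    omega

lemma clo_rs {n B c c' : ℕ} (hB : 0 < B) (hc : c < 8) (hc' : c' < 8) (h1 : c ≠ c')
    (h2 : (c + 4) % 8 ≠ c') (R' : ℕ → ℕ → Prop) : Clo n (Rs B c) R' (Rs B c') := by
  intro q hq _ a b hab
  obtain ⟨e1, e2⟩ := id hab
  have e3 : (b : ℕ) / B = a / B + 4 := by rw [e1, div_add4 hB]
  rw [S1_fix, S1_fix]
  · exact hq a b hab
  · rintro d ⟨h3, h4⟩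
    omega
  · rintro d ⟨h3, h4⟩
    have e4 : (b : ℕ) / B = d / B + 4 := by rw [h3, div_add4 hB]
    omega
  · rintro d ⟨h3, h4⟩
    omega
  · rintro d ⟨h3, h4⟩
    have e4 : (a : ℕ) / B = d / B + 4 := by rw [h3, div_add4 hB]
    omega

section spread
variable {ι : Type*} [DecidableEq ι] [Fintype ι] {n : ℕ}

omit [Fintype ι] in
lemma cn_m_sub {B c ρ : ℕ} (hB : 0 < B) :
    Cn ι n (M1 B c ρ) ∩ Cn ι n (M2 B c ρ) ⊆ Cn ι n (Rs B c) := by
  rintro p ⟨h1, h2⟩ i x v ⟨hv1, hv2⟩
  set a : ℕ := (x i : ℕ) with ha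
  set y : ℕ := B * (a / B + 1) + (a % B + ρ) % B with hy
  have hr : (a % B + ρ) % B < B := Nat.mod_lt _ hB
  have hyd : y / B = a / B + 1 := by
    rw [hy, Nat.mul_add_div hB, Nat.div_eq_of_lt hr, add_zero]
  have hym : y % B = (a % B + ρ) % B := by
    rw [hy, Nat.mul_add_mod, Nat.mod_mod]
  have hsq : Sq B c ρ a y := ⟨hv2, hyd, hym⟩
  have had : B * (a / B) ≤ a := Nat.mul_div_le _ _
  have hyn : y < n := by
    have := v.2
    rw [mul_add, mul_one] at hy
    omega
  let w : Fin n := ⟨y, hyn⟩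
  have g1 := h1 i x w (Or.inl hsq)
  have g2 := h2 i (Function.update x i w) v (by
    rw [Function.update_self]
    exact ⟨a, y, hsq, Or.inr ⟨rfl, hv1⟩⟩)
  rw [Function.update_idem] at g2
  exact g1.trans g2

theorem near_rs {B c ρ : ℕ} (hB : 0 < B) (hc : c < 8) {f : EuclideanSpace ℝ (ι → Fin n)}
    {r s : ℝ} (h1 : Near (Cn ι n (M1 B c ρ)) f r) (h2 : Near (Cn ι n (M2 B c ρ)) f s) :
    Near (Cn ι n (Rs B c)) f (r + s) := by
  have := Near.inter (Cn_closed _) (Cn_convex _) (fun g p hp hg =>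
    proj_pres (m2_match hB hc) (clo_m1_m2 hB hc (fun _ _ => False)) hp
      (fun _ _ _ hv => hv.elim) hg) h1 h2
  exact this.mono (cn_m_sub hB) le_rfl

lemma near_rs_inter {B c c' : ℕ} (hB : 0 < B) (hc : c < 8) (hc' : c' < 8) (h1 : c ≠ c')
    (h2 : (c + 4) % 8 ≠ c') : ∀ g p, IsProj (Cn ι n (Rs B c)) g p → g ∈ Cn ι n (Rs B c') →
    p ∈ Cn ι n (Rs B c') := fun _ _ hp hg =>
  proj_pres (rs_match hB) (clo_rs hB hc hc' h1 h2 (fun _ _ => False)) hp
      (fun _ _ _ hv => hv.elim) hg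

lemma near_four {B : ℕ} (hB : 0 < B) {f : EuclideanSpace ℝ (ι → Fin n)} {D : ℝ}
    (c : ℕ) (hc : c = 0 ∨ c = 4) (h0 : Near (Cn ι n (Rs B c)) f D)
    (h1 : Near (Cn ι n (Rs B (c + 1))) f D) (h2 : Near (Cn ι n (Rs B (c + 2))) f D)
    (h3 : Near (Cn ι n (Rs B (c + 3))) f D) :
    Near (Cn ι n (Rs B c) ∩ (Cn ι n (Rs B (c + 1)) ∩ (Cn ι n (Rs B (c + 2)) ∩
      Cn ι n (Rs B (c + 3))))) f (4 * D) := by
  have s1 := Near.inter (Cn_closed _) (Cn_convex _)
    (near_rs_inter (c := c + 2) (c' := c + 3) hB (by omega) (by omega) (by omega) (by omega)) h2 h3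
  have s2 := Near.inter (K2 := Cn ι n (Rs B (c + 2)) ∩ Cn ι n (Rs B (c + 3)))
    (Cn_closed _) (Cn_convex _)
    (fun g p hp hg => ⟨near_rs_inter (c := c + 1) (c' := c + 2) hB (by omega) (by omega)
      (by omega) (by omega) g p hp hg.1, near_rs_inter (c := c + 1) (c' := c + 3) hB (by omega)
      (by omega) (by omega) (by omega) g p hp hg.2⟩) h1 s1
  have s3 := Near.inter (K2 := Cn ι n (Rs B (c + 1)) ∩ (Cn ι n (Rs B (c + 2)) ∩
      Cn ι n (Rs B (c + 3)))) (Cn_closed _) (Cn_convex _)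
    (fun g p hp hg => ⟨near_rs_inter (c := c) (c' := c + 1) hB (by omega) (by omega)
      (by omega) (by omega) g p hp hg.1, near_rs_inter (c := c) (c' := c + 2) hB (by omega)
      (by omega) (by omega) (by omega) g p hp hg.2.1, near_rs_inter (c := c) (c' := c + 3) hB
      (by omega) (by omega) (by omega) (by omega) g p hp hg.2.2⟩) h0 s2
  exact s3.mono (fun _ h => h) (by linarith)

lemma div4 (a B : ℕ) : a / (4 * B) = a / B / 4 := by
  rw [Nat.div_div_eq_div_mul, mul_comm]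

theorem near_ev {B : ℕ} (hB : 0 < B) {f : EuclideanSpace ℝ (ι → Fin n)} {D : ℝ}
    (h : ∀ c < 8, Near (Cn ι n (Rs B c)) f D) : Near (Cn ι n (Ev (4 * B))) f (4 * D) := by
  have := near_four hB 0 (Or.inl rfl) (h 0 (by norm_num)) (h 1 (by norm_num))
    (h 2 (by norm_num)) (h 3 (by norm_num))
  refine this.mono ?_ le_rfl
  rintro p ⟨g0, g1, g2, g3⟩ i x v ⟨hv1, hv2⟩
  rw [div4] at hv2
  have : ((x i : ℕ) / B) % 8 = 0 ∨ ((x i : ℕ) / B) % 8 = 1 ∨ ((x i : ℕ) / B) % 8 = 2 ∨
    ((x i : ℕ) / B) % 8 = 3 := by omega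
  rcases this with h | h | h | h
  · exact g0 i x v ⟨hv1, h⟩
  · exact g1 i x v ⟨hv1, h⟩
  · exact g2 i x v ⟨hv1, h⟩
  · exact g3 i x v ⟨hv1, h⟩

theorem near_od {B : ℕ} (hB : 0 < B) {f : EuclideanSpace ℝ (ι → Fin n)} {D : ℝ}
    (h : ∀ c < 8, Near (Cn ι n (Rs B c)) f D) : Near (Cn ι n (Od (4 * B))) f (4 * D) := by
  have := near_four hB 4 (Or.inr rfl) (h 4 (by norm_num)) (h 5 (by norm_num))
    (h 6 (by norm_num)) (h 7 (by norm_num))
  refine this.mono ?_ le_rfl
  rintro p ⟨g0, g1, g2, g3⟩ i x v ⟨hv1, hv2⟩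
  rw [div4] at hv2
  have : ((x i : ℕ) / B) % 8 = 4 ∨ ((x i : ℕ) / B) % 8 = 5 ∨ ((x i : ℕ) / B) % 8 = 6 ∨
    ((x i : ℕ) / B) % 8 = 7 := by omega
  rcases this with h | h | h | h
  · exact g0 i x v ⟨hv1, h⟩
  · exact g1 i x v ⟨hv1, h⟩
  · exact g2 i x v ⟨hv1, h⟩
  · exact g3 i x v ⟨hv1, h⟩

end spread

section count

lemma lt_four {B c ρ a b : ℕ} (hB : 0 < B) (h : M1 B c ρ a b ∨ M2 B c ρ a b) :
    b ≤ a + 4 * B := by
  have key : ∀ x y, Sq B c ρ x y → x < y + B ∧ y < x + 2 * B ∧ x < y := by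
    intro x y hs
    have e1 := hs.2.1
    have h1 := Nat.div_add_mod y B
    have h2 := Nat.mod_lt y hB
    have h3 := Nat.div_add_mod x B
    have h4 := Nat.mod_lt x hB
    rw [e1, mul_add, mul_one] at h1
    omega
  rcases h with (h | ⟨x, y, h, h1, h2⟩) | ⟨x, y, h, (⟨h1, h2⟩ | ⟨h1, h2⟩)⟩
  · have := key _ _ h; omega
  · have := key _ _ h; omega
  · have := key _ _ h; omega
  · have := key _ _ h; omega

/-- the shift is determined by the square -/
lemma Sq.shift {B c ρ ρ' x y : ℕ} (h : Sq B c ρ x y) (h' : Sq B c ρ' x y) (hρ : ρ < B)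
    (hρ' : ρ' < B) : ρ = ρ' := by
  have h1 : (x % B + ρ) % B = (x % B + ρ') % B := h.2.2.symm.trans h'.2.2
  have h2 : x % B + ρ ≡ x % B + ρ' [MOD B] := h1
  have h3 := Nat.ModEq.add_left_cancel' (x % B) h2
  have h4 : ρ % B = ρ' % B := h3
  rwa [Nat.mod_eq_of_lt hρ, Nat.mod_eq_of_lt hρ'] at h4

lemma m1_shift {B c ρ ρ' a b : ℕ} (hB : 0 < B) (_hc : c < 8) (h : M1 B c ρ a b)
    (h' : M1 B c ρ' a b) (hρ : ρ < B) (hρ' : ρ' < B) : ρ = ρ' := by
  rcases h with h | ⟨x, y, h, h1, h2⟩ <;> rcases h' with h' | ⟨x', y', h', h1', h2'⟩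
  · exact h.shift h' hρ hρ'
  · exfalso
    have e1 := h.1
    have e2 := h'.1
    have e3 := h'.2.1
    have e5 : a / B = y' / B + 1 := by rw [h1', div_add1 hB]
    omega
  · exfalso
    have e1 := h'.1
    have e2 := h.1
    have e3 := h.2.1
    have e5 : a / B = y / B + 1 := by rw [h1, div_add1 hB]
    omega
  · have hx : x = x' := by omega
    have hy : y = y' := by omega
    subst hx hy
    exact h.shift h' hρ hρ'

lemma m2_shift {B c ρ ρ' a b : ℕ} (_hB : 0 < B) (_hc : c < 8) (h : M2 B c ρ a b)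
    (h' : M2 B c ρ' a b) (hρ : ρ < B) (hρ' : ρ' < B) : ρ = ρ' := by
  obtain ⟨x, y, h, (⟨h1, h2⟩ | ⟨h1, h2⟩)⟩ := h <;>
    obtain ⟨x', y', h', (⟨h1', h2'⟩ | ⟨h1', h2'⟩)⟩ := h'
  · have hx : x = x' := by omega
    have hy : y = y' := by omega
    subst hx hy
    exact h.shift h' hρ hρ'
  · exfalso
    have e1 := h.1
    have e2 := h'.1
    have e3 := h'.2.1
    rw [← h1'] at e3
    rw [← h1] at e1
    omega
  · exfalso
    have e1 := h'.1
    have e2 := h.1
    have e3 := h.2.1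
    rw [← h1] at e3
    rw [← h1'] at e1
    omega
  · have hx : x = x' := by omega
    have hy : y = y' := by omega
    subst hx hy
    exact h.shift h' hρ hρ'

end count

end CT
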