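import Pool.Agent.Helper24.CT.Sort

/-! The averaged sorted function: its variance is bounded by the coloured potential, and it is
monotone in all the directions used. -/

namespace CT

open Finset

lemma kk_min_max (u v : ℝ) : kk u (min u v) + kk v (max u v) ≤ 2 * cc u v := by
  rcases le_total u v with h | h
  · simp only [h, min_eq_left, max_eq_right, kk_self]
    linarith [cc_nonneg u v]
  · simp only [h, min_eq_right, max_eq_left]
    unfold kk
    rw [cc_le_of_le h]
    linarith

namespace Sys

variable {X ι : Type*} (S : Sys X ι) [Fintype X]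

lemma sum_kk_srt (i : ι) (g : X → ℝ) : ∑ x, kk (g x) (S.srt i g x) ≤ 2 * S.cost i g := by
  unfold cost
  rw [Finset.mul_sum]
  apply S.pair_sum_le i
  intro x
  by_cases hx : S.fl i x = x
  · have h1 : S.srt i g x = g x := by
      unfold srt
      rw [hx]
      simp
    have h2 : 0 ≤ if S.up i x = false then 2 * cc (g x) (g (S.fl i x)) else 0 := by
      split_ifs
      · have := cc_nonneg (g x) (g (S.fl i x))
        linarith
      · exact le_rfl
    rw [hx, h1, kk_self]
    simpa [hx] using h2
  · have hup := S.up_fl i x hx
    cases hu : S.up i x with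
    | false =>
      rw [hu] at hup
      have e1 : S.srt i g x = min (g x) (g (S.fl i x)) := by simp [srt, hu]
      have e2 : S.srt i g (S.fl i x) = max (g x) (g (S.fl i x)) := by
        simp [srt, hup, S.inv, max_comm]
      rw [e1, e2, hup]
      have := kk_min_max (g x) (g (S.fl i x))
      simpa using this
    | true =>
      rw [hu] at hup
      have e1 : S.srt i g x = max (g x) (g (S.fl i x)) := by simp [srt, hu]
      have e2 : S.srt i g (S.fl i x) = min (g x) (g (S.fl i x)) := by
        simp [srt, hup, S.inv, min_comm]
      rw [e1, e2, hup, S.inv]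
      have := kk_min_max (g (S.fl i x)) (g x)
      rw [min_comm, max_comm] at this
      simp only [Bool.not_true, if_true]
      rw [if_neg (by simp)]
      linarith

section
variable [DecidableEq ι]

/-- sorting along the members of `T`, in the order of `π`. -/
noncomputable def srtT (π : List ι) (T : Finset ι) (g : X → ℝ) : X → ℝ :=
  S.sortL (π.filter (fun j => decide (j ∈ T))) g

omit [Fintype X] in
lemma filter_insert_eq {π : List ι} {i : ι} (hi : i ∉ π) (T : Finset ι) :
    π.filter (fun j => decide (j ∈ insert i T)) = π.filter (fun j => decide (j ∈ T)) := by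
  apply List.filter_congr
  intro j hj
  have : j ≠ i := fun h => hi (h ▸ hj)
  simp [this]

lemma sum_kk_srtT (π : List ι) (hπ : π.Nodup) {i : ι} {T : Finset ι} (hiT : i ∉ T) (g : X → ℝ) :
    ∑ x, kk (S.srtT π T g x) (S.srtT π (insert i T) g x) ≤
      if i ∈ π then 2 * S.cost i g else 0 := by
  by_cases hi : i ∈ π
  · rw [if_pos hi]
    induction π generalizing g with
    | nil => simp at hi
    | cons j π' ih =>
      have hnd := List.nodup_cons.mp hπ
      by_cases hji : j = i
      · subst hji
        have e1 : S.srtT (j :: π') T g = S.srtT π' T g := by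
          unfold srtT
          rw [List.filter_cons_of_neg (by simpa using hiT)]
        have e2 : S.srtT (j :: π') (insert j T) g = S.srtT π' T (S.srt j g) := by
          unfold srtT
          rw [List.filter_cons_of_pos (by simp), filter_insert_eq hnd.1, sortL_cons]
        rw [e1, e2]
        exact (good_sortL S good_kk _ _ _).trans (S.sum_kk_srt j g)
      · have hi' : i ∈ π' := by
          rcases List.mem_cons.mp hi with h | h
          · exact absurd h.symm hji
          · exact h
        by_cases hjT : j ∈ T
        · have e1 : S.srtT (j :: π') T g = S.srtT π' T (S.srt j g) := by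
            unfold srtT
            rw [List.filter_cons_of_pos (by simpa using hjT), sortL_cons]
          have e2 : S.srtT (j :: π') (insert i T) g = S.srtT π' (insert i T) (S.srt j g) := by
            unfold srtT
            rw [List.filter_cons_of_pos (by simp [hjT]), sortL_cons]
          rw [e1, e2]
          have h1 := ih hnd.2 (S.srt j g) hi'
          have h2 := S.cost_srt_ne hji g
          linarith
        · have e1 : S.srtT (j :: π') T g = S.srtT π' T g := by
            unfold srtT
            rw [List.filter_cons_of_neg (by simpa using hjT)]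
          have e2 : S.srtT (j :: π') (insert i T) g = S.srtT π' (insert i T) g := by
            unfold srtT
            rw [List.filter_cons_of_neg (by simp [hjT, hji])]
          rw [e1, e2]
          exact ih hnd.2 g hi'
  · rw [if_neg hi]
    unfold srtT
    rw [filter_insert_eq hi]
    simp [kk_self]

/-- the relation: below across direction `i` -/
def Rel (i : ι) (p q : X → ℝ) : Prop := ∀ x, S.up i x = false → p x ≤ q (S.fl i x)

omit [Fintype X] [DecidableEq ι] in
lemma rel_srt_ne {i j : ι} (hij : j ≠ i) {p q : X → ℝ} (h : S.Rel i p q) :
    S.Rel i (S.srt j p) (S.srt j q) := by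
  intro x hx
  have h1 : S.up i (S.fl j x) = false := by rw [S.up_ne i j x hij]; exact hx
  have a1 := h x hx
  have a2 := h _ h1
  rw [S.comm] at a2
  unfold srt
  rw [S.up_ne j i x (Ne.symm hij)]
  cases S.up j x
  · simp only [Bool.false_eq_true, if_false]
    exact min_le_min a1 a2
  · simp only [if_true]
    exact max_le_max a1 a2

omit [Fintype X] [DecidableEq ι] in
lemma rel_sortL_ne {i : ι} {L : List ι} (hL : i ∉ L) {p q : X → ℝ} (h : S.Rel i p q) :
    S.Rel i (S.sortL L p) (S.sortL L q) := by
  induction L generalizing p q with
  | nil => exact h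
  | cons j L ih =>
    rw [List.mem_cons, not_or] at hL
    rw [sortL_cons, sortL_cons]
    exact ih hL.2 (S.rel_srt_ne (Ne.symm hL.1) h)

omit [Fintype X] [DecidableEq ι] in
lemma rel_srt_right (i : ι) (g : X → ℝ) : S.Rel i g (S.srt i g) := by
  intro x hx
  by_cases h : S.fl i x = x
  · rw [h]
    unfold srt
    rw [h]
    simp
  · have hup := S.up_fl i x h
    rw [hx] at hup
    unfold srt
    rw [hup, S.inv]
    simp

omit [Fintype X] [DecidableEq ι] in
lemma rel_srt_left (i : ι) (g : X → ℝ) : S.Rel i (S.srt i g) g := by
  intro x hx
  unfold srt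
  rw [hx]
  simp

omit [Fintype X] in
lemma rel_srtT (π : List ι) (hπ : π.Nodup) {i : ι} (hi : i ∈ π) {T : Finset ι} (hiT : i ∉ T)
    (g : X → ℝ) :
    S.Rel i (S.srtT π T g) (S.srtT π (insert i T) g) ∧
    S.Rel i (S.srtT π (insert i T) g) (S.srtT π T g) := by
  induction π generalizing g with
  | nil => simp at hi
  | cons j π' ih =>
    have hnd := List.nodup_cons.mp hπ
    by_cases hji : j = i
    · subst hji
      have e1 : S.srtT (j :: π') T g = S.srtT π' T g := by
        unfold srtT
        rw [List.filter_cons_of_neg (by simpa using hiT)]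
      have e2 : S.srtT (j :: π') (insert j T) g = S.srtT π' T (S.srt j g) := by
        unfold srtT
        rw [List.filter_cons_of_pos (by simp), filter_insert_eq hnd.1, sortL_cons]
      rw [e1, e2]
      have hm : j ∉ π'.filter (fun k => decide (k ∈ T)) := fun h => hnd.1 (List.mem_filter.mp h).1
      exact ⟨S.rel_sortL_ne hm (S.rel_srt_right j g), S.rel_sortL_ne hm (S.rel_srt_left j g)⟩
    · have hi' : i ∈ π' := by
        rcases List.mem_cons.mp hi with h | h
        · exact absurd h.symm hji
        · exact h
      by_cases hjT : j ∈ T
      · have e1 : S.srtT (j :: π') T g = S.srtT π' T (S.srt j g) := by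
          unfold srtT
          rw [List.filter_cons_of_pos (by simpa using hjT), sortL_cons]
        have e2 : S.srtT (j :: π') (insert i T) g = S.srtT π' (insert i T) (S.srt j g) := by
          unfold srtT
          rw [List.filter_cons_of_pos (by simp [hjT]), sortL_cons]
        rw [e1, e2]
        exact ih hnd.2 hi' _
      · have e1 : S.srtT (j :: π') T g = S.srtT π' T g := by
          unfold srtT
          rw [List.filter_cons_of_neg (by simpa using hjT)]
        have e2 : S.srtT (j :: π') (insert i T) g = S.srtT π' (insert i T) g := by
          unfold srtT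
          rw [List.filter_cons_of_neg (by simp [hjT, hji])]
        rw [e1, e2]
        exact ih hnd.2 hi' _

/-- `p` is monotone in direction `i` -/
def MonI (i : ι) (p : X → ℝ) : Prop := ∀ x, S.up i x = false → p x ≤ p (S.fl i x)

variable [Fintype ι]

/-- the average over all subsets of directions -/
noncomputable def mu (π : List ι) (f : X → ℝ) (x : X) : ℝ :=
  avgS univ (fun T => S.srtT π T f x)

end
end Sys

section avg
variable {ι : Type*} [DecidableEq ι]

lemma avgS_congr {s : Finset ι} {F G : Finset ι → ℝ} (h : ∀ T ∈ s.powerset, F T = G T) :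
    avgS s F = avgS s G := by
  unfold avgS
  rw [Finset.sum_congr rfl h]

lemma avgS_split [Fintype ι] (i : ι) (F : Finset ι → ℝ) :
    avgS univ F = avgS (univ.erase i) (fun T => (F (T.erase i) + F (insert i T)) / 2) := by
  have h1 : (univ : Finset ι) = insert i (univ.erase i) := by simp
  conv_lhs => rw [h1]
  rw [avgS_insert (by simp)]
  have h2 : avgS (univ.erase i) F = avgS (univ.erase i) (fun T => F (T.erase i)) := by
    apply avgS_congr
    intro T hT
    rw [Finset.mem_powerset] at hT
    have : i ∉ T := fun h => by simpa using hT h
    rw [Finset.erase_eq_of_notMem this]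
  rw [h2, ← avgS_add, div_eq_inv_mul, ← avgS_mul]
  congr 1
  funext T
  ring

end avg

namespace Sys
variable {X ι : Type*} (S : Sys X ι) [DecidableEq ι] [Fintype ι]

lemma mu_mono (π : List ι) (hπ : π.Nodup) (f : X → ℝ) {i : ι} (hi : i ∈ π) :
    S.MonI i (S.mu π f) := by
  intro x hx
  unfold mu
  rw [avgS_split i, avgS_split i]
  apply avgS_mono
  intro T
  have hiT : i ∉ T.erase i := by simp
  obtain ⟨h1, h2⟩ := S.rel_srtT π hπ hi hiT f
  have a1 := h1 x hx
  have a2 := h2 x hx
  have h3 : insert i (T.erase i) = insert i T := by
    ext j
    by_cases hj : j = i <;> simp [hj]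
  rw [h3] at a1 a2
  linarith

end Sys

end CT
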