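import Pool.Agent.Helper24.CT.Vari

/-! Variance bound for the averaged sorted function. -/

namespace CT

open Finset

namespace Sys

variable {X ι : Type*} (S : Sys X ι) [Fintype X]

/-- coloured weight of the directions in `A` at `x`. -/
noncomputable def WW (w : ι → X → ℝ) (A : Finset ι) (x : X) : ℝ := ∑ i ∈ A, w i x

/-- coloured potential. -/
noncomputable def TT (w : ι → X → ℝ) (A : Finset ι) : ℝ := ∑ x, √(WW w A x)

/-- the signed function carrying `1 / lam`. -/
noncomputable def gg (f lam : X → ℝ) (x : X) : ℝ := (if f x = 1 then 1 else -1) / lam x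

lemma cost_gg_le (f : X → ℝ) (hf : ∀ x, f x = 0 ∨ f x = 1) (w : ι → X → ℝ)
    (hw0 : ∀ i x, 0 ≤ w i x)
    (hw : ∀ i x, S.up i x = false → f x = 1 → f (S.fl i x) = 0 → 1 ≤ w i x + w i (S.fl i x))
    (lam : X → ℝ) (hlam : ∀ x, 0 < lam x) (i : ι) :
    S.cost i (gg f lam) ≤ ∑ x, w i x / lam x := by
  have key : ∀ x, S.up i x = false → cc (gg f lam x) (gg f lam (S.fl i x)) ≤
      w i x / lam x + w i (S.fl i x) / lam (S.fl i x) := by
    intro x hx
    have p1 : 0 ≤ w i x / lam x := div_nonneg (hw0 _ _) (hlam _).le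
    have p2 : 0 ≤ w i (S.fl i x) / lam (S.fl i x) := div_nonneg (hw0 _ _) (hlam _).le
    have q1 : 0 < 1 / lam x := by have := hlam x; positivity
    have q2 : 0 < 1 / lam (S.fl i x) := by have := hlam (S.fl i x); positivity
    rcases hf x with h0 | h1
    · have : gg f lam x ≤ 0 := by
        unfold gg
        rw [h0]
        norm_num
        exact div_nonpos_of_nonpos_of_nonneg (by norm_num) (hlam x).le
      have : cc (gg f lam x) (gg f lam (S.fl i x)) = 0 :=
        max_eq_right ((min_le_left _ _).trans this)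
      rw [this]
      positivity
    · rcases hf (S.fl i x) with h0 | h2
      · have := hw i x hx h1 h0
        have e1 : gg f lam x = 1 / lam x := by unfold gg; simp [h1]
        have e2 : - gg f lam (S.fl i x) = 1 / lam (S.fl i x) := by
          unfold gg
          rw [h0]
          norm_num
          ring
        unfold cc
        rw [e1, e2]
        apply max_le _ (by positivity)
        have r1 : w i x / lam x = w i x * (1 / lam x) := by ring
        have r2 : w i (S.fl i x) / lam (S.fl i x) = w i (S.fl i x) * (1 / lam (S.fl i x)) := by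
          ring
        rw [r1, r2]
        set m := min (1 / lam x) (1 / lam (S.fl i x)) with hm
        have m1 : m ≤ 1 / lam x := min_le_left _ _
        have m2 : m ≤ 1 / lam (S.fl i x) := min_le_right _ _
        have m0 : 0 < m := lt_min q1 q2
        have s1 := mul_le_mul_of_nonneg_left m1 (hw0 i x)
        have s2 := mul_le_mul_of_nonneg_left m2 (hw0 i (S.fl i x))
        nlinarith
      · have : - gg f lam (S.fl i x) ≤ 0 := by
          unfold gg
          rw [h2]
          norm_num
          exact (hlam _).le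
        have : cc (gg f lam x) (gg f lam (S.fl i x)) = 0 :=
          max_eq_right ((min_le_right _ _).trans this)
        rw [this]
        positivity
  unfold cost
  apply S.pair_sum_le i
  intro x
  have p1 : 0 ≤ w i x / lam x := div_nonneg (hw0 _ _) (hlam _).le
  by_cases hx : S.fl i x = x
  · simp only [hx, cc_self, ite_self]
    linarith
  · have hup := S.up_fl i x hx
    cases hu : S.up i x with
    | false =>
      rw [hu] at hup
      rw [hup]
      simp only [if_true, Bool.not_false]
      rw [if_neg (by simp)]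
      have := key x hu
      linarith
    | true =>
      rw [hu] at hup
      rw [hup, S.inv]
      simp only [if_true, Bool.not_true]
      rw [if_neg (by simp)]
      have := key (S.fl i x) hup
      rw [S.inv] at this
      linarith

variable [DecidableEq ι] [Fintype ι]

/-- toggle -/
def tog (i : ι) (T : Finset ι) : Finset ι := if i ∈ T then T.erase i else insert i T

omit [Fintype ι] in
lemma sum_kk_tog (π : List ι) (hπ : π.Nodup) (i : ι) (T : Finset ι) (g : X → ℝ) :
    ∑ x, kk (S.srtT π T g x) (S.srtT π (tog i T) g x) ≤ if i ∈ π then 2 * S.cost i g else 0 := by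
  unfold tog
  by_cases hi : i ∈ T
  · rw [if_pos hi]
    have h1 := S.sum_kk_srtT π hπ (i := i) (T := T.erase i) (by simp) g
    rw [Finset.insert_erase hi] at h1
    refine le_trans (le_of_eq ?_) h1
    apply Finset.sum_congr rfl
    intro x _
    rw [kk_comm]
  · rw [if_neg hi]
    exact S.sum_kk_srtT π hπ hi g

/-- step function -/
noncomputable def phi (u : ℝ) : ℝ := if 0 < u then 1 else 0

lemma phi_mono : Monotone phi := by
  intro a b hab
  unfold phi
  split_ifs with h1 h2 h2
  · exact le_rfl
  · exact absurd (lt_of_lt_of_le h1 hab) h2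
  · norm_num
  · exact le_rfl

omit [Fintype X] in
lemma f_eq_phi (f lam : X → ℝ) (hf : ∀ x, f x = 0 ∨ f x = 1) (hlam : ∀ x, 0 < lam x) :
    f = fun x => phi (gg f lam x) := by
  funext x
  have h := hlam x
  unfold phi gg
  rcases hf x with h0 | h1
  · rw [h0, if_neg]
    norm_num
    exact div_nonpos_of_nonpos_of_nonneg (by norm_num) h.le
  · rw [h1, if_pos]
    simpa using h

omit [Fintype ι] [Fintype X] in
lemma srtT_01 (π : List ι) (T : Finset ι) (f : X → ℝ) (hf : ∀ x, f x = 0 ∨ f x = 1) (x : X) :
    S.srtT π T f x = 0 ∨ S.srtT π T f x = 1 :=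
  S.sortL_prop (P := fun u => u = 0 ∨ u = 1) _ f hf x

omit [Fintype ι] [DecidableEq ι] in
lemma amgm {s a : ℝ} (hs : 0 ≤ s) (ha : 0 < a) : √(s / 2) ≤ (1 / a + s * a / 2) / 2 := by
  rw [Real.sqrt_le_left (by positivity)]
  have h1 : s / 2 = (1 / a) * (s * a / 2) := by field_simp
  rw [h1]
  nlinarith [sq_nonneg (1 / a - s * a / 2)]

theorem sum_JJ_mu_eta (f : X → ℝ) (hf : ∀ x, f x = 0 ∨ f x = 1) (w : ι → X → ℝ)
    (hw0 : ∀ i x, 0 ≤ w i x)
    (hw : ∀ i x, S.up i x = false → f x = 1 → f (S.fl i x) = 0 → 1 ≤ w i x + w i (S.fl i x))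
    (π : List ι) (hπ : π.Nodup) (η : ℝ) (hη : 0 < η) :
    ∑ x, JJ (S.mu π f x) ≤ TT w π.toFinset + η * (Fintype.card X : ℝ) / 2 := by
  classical
  set A := π.toFinset with hA
  have hWn : ∀ x, 0 ≤ WW w A x := fun x => Finset.sum_nonneg (fun i _ => hw0 i x)
  set lam : X → ℝ := fun x => √(WW w A x) + η with hlamdef
  have hlam : ∀ x, 0 < lam x := fun x => by
    have := Real.sqrt_nonneg (WW w A x)
    rw [hlamdef]; simp only; linarith
  set g : X → ℝ := gg f lam with hg
  have hgne : ∀ x, g x ≠ 0 := by
    intro x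
    rw [hg]
    unfold gg
    apply div_ne_zero _ (hlam x).ne'
    split_ifs <;> norm_num
  set gT : Finset ι → X → ℝ := fun T => S.srtT π T g with hgT
  have hgTne : ∀ T x, gT T x ≠ 0 := fun T x =>
    S.sortL_prop (P := fun u => u ≠ 0) _ g hgne x
  set h : Finset ι → X → ℝ := fun T => S.srtT π T f with hh
  have hphi : ∀ T x, h T x = phi (gT T x) := by
    intro T x
    rw [hh, hgT]
    simp only
    conv_lhs => rw [f_eq_phi f lam hf hlam]
    unfold srtT
    rw [S.sortL_comp phi_mono]
  have hsign : ∀ T T' x, h T x ≠ h T' x → (0 < gT T x ∧ gT T' x ≤ 0 ∨ gT T x ≤ 0 ∧ 0 < gT T' x) := by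
    intro T T' x hne
    rw [hphi, hphi] at hne
    unfold phi at hne
    by_cases h1 : 0 < gT T x <;> by_cases h2 : 0 < gT T' x
    · simp [h1, h2] at hne
    · left; exact ⟨h1, not_lt.mp h2⟩
    · right; exact ⟨not_lt.mp h1, h2⟩
    · simp [h1, h2] at hne
  set t : X → ι → Finset ι → ℝ := fun x i T =>
    if h T x ≠ h (tog i T) x ∧ |gT T x| ≤ |gT (tog i T) x| then 1 else 0 with ht
  have ht0 : ∀ x i T, 0 ≤ t x i T := by
    intro x i T
    rw [ht]; simp only; split_ifs <;> norm_num
  -- pointwise application of the cube inequality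
  have step1 : ∀ x, JJ (S.mu π f x) ≤ avgS univ (fun T => √((∑ i, (t x i T) ^ 2) / 2)) := by
    intro x
    apply talagrand_cube univ (fun T => h T x) (t x)
    · intro T
      exact S.srtT_01 π T f hf x
    · exact ht0 x
    · intro i T hi
      have e1 : tog i T = insert i T := by unfold tog; rw [if_neg hi]
      have e2 : tog i (insert i T) = T := by
        unfold tog
        rw [if_pos (Finset.mem_insert_self _ _), Finset.erase_insert hi]
      by_cases hne : h T x = h (insert i T) x
      · rw [hne]
        simp only [sub_self, abs_zero]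
        exact add_nonneg (ht0 _ _ _) (ht0 _ _ _)
      · have hd : |h T x - h (insert i T) x| ≤ 1 := by
          rcases S.srtT_01 π T f hf x with h1 | h1 <;>
          rcases S.srtT_01 π (insert i T) f hf x with h2 | h2 <;>
          · have h1' : h T x = _ := h1
            have h2' : h (insert i T) x = _ := h2
            rw [h1', h2']
            norm_num
        refine hd.trans ?_
        have := ht0 x i T
        have := ht0 x i (insert i T)
        rcases le_total |gT T x| |gT (insert i T) x| with hle | hle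
        · have : t x i T = 1 := by
            rw [ht]; simp only
            rw [e1, if_pos ⟨hne, hle⟩]
          linarith
        · have : t x i (insert i T) = 1 := by
            rw [ht]; simp only
            rw [e2, if_pos ⟨fun hq => hne hq.symm, hle⟩]
          linarith
  -- AM-GM
  have step2 : ∀ x T, √((∑ i, (t x i T) ^ 2) / 2) ≤
      (1 / |gT T x| + (∑ i, kk (gT T x) (gT (tog i T) x)) / 2) / 2 := by
    intro x T
    have hpos : 0 < |gT T x| := abs_pos.mpr (hgTne T x)
    refine (amgm (Finset.sum_nonneg (fun i _ => sq_nonneg _)) hpos).trans ?_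
    have : (∑ i, (t x i T) ^ 2) * |gT T x| ≤ ∑ i, kk (gT T x) (gT (tog i T) x) := by
      rw [Finset.sum_mul]
      apply Finset.sum_le_sum
      intro i _
      rw [ht]
      simp only
      split_ifs with hc
      · rw [one_pow, one_mul]
        exact le_kk_of_signs (hsign _ _ _ hc.1) hc.2
      · rw [zero_pow (by norm_num), zero_mul]
        exact kk_nonneg _ _
    linarith
  have step3 : ∑ x, JJ (S.mu π f x) ≤
      avgS univ (fun T => (∑ x, 1 / |gT T x| + (∑ i, ∑ x, kk (gT T x) (gT (tog i T) x)) / 2) / 2) := by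
    calc ∑ x, JJ (S.mu π f x) ≤ ∑ x, avgS univ (fun T => √((∑ i, (t x i T) ^ 2) / 2)) :=
          Finset.sum_le_sum (fun x _ => step1 x)
      _ ≤ ∑ x, avgS univ (fun T =>
          (1 / |gT T x| + (∑ i, kk (gT T x) (gT (tog i T) x)) / 2) / 2) :=
          Finset.sum_le_sum (fun x _ => avgS_mono (fun T => step2 x T))
      _ = avgS univ (fun T => ∑ x,
          (1 / |gT T x| + (∑ i, kk (gT T x) (gT (tog i T) x)) / 2) / 2) := by
          rw [avgS_sum]
      _ = _ := by
          congr 1
          funext T
          rw [← Finset.sum_div, Finset.sum_add_distrib, ← Finset.sum_div, Finset.sum_comm]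
  have step4 : ∀ T, (∑ x, 1 / |gT T x| + (∑ i, ∑ x, kk (gT T x) (gT (tog i T) x)) / 2) / 2 ≤
      TT w A + η * (Fintype.card X : ℝ) / 2 := by
    intro T
    have a1 : ∑ x, 1 / |gT T x| = ∑ x, lam x := by
      have := S.sum_sortL (fun u => 1 / |u|) (π.filter (fun j => decide (j ∈ T))) g
      rw [hgT]
      unfold srtT
      refine Eq.trans this ?_
      apply Finset.sum_congr rfl
      intro x _
      rw [hg]
      unfold gg
      rw [abs_div, abs_of_pos (hlam x)]
      split_ifs <;> norm_num
    have a2 : ∑ x, lam x = TT w A + η * (Fintype.card X : ℝ) := by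
      rw [hlamdef]
      simp only
      rw [Finset.sum_add_distrib, Finset.sum_const, Finset.card_univ, nsmul_eq_mul]
      unfold TT
      ring
    have a3 : ∑ i, ∑ x, kk (gT T x) (gT (tog i T) x) ≤ ∑ i ∈ A, 2 * ∑ x, w i x / lam x := by
      calc ∑ i, ∑ x, kk (gT T x) (gT (tog i T) x) ≤ ∑ i, (if i ∈ π then 2 * S.cost i g else 0) :=
            Finset.sum_le_sum (fun i _ => S.sum_kk_tog π hπ i T g)
        _ = ∑ i ∈ A, 2 * S.cost i g := by
            rw [← Finset.sum_filter]
            apply Finset.sum_congr _ (fun _ _ => rfl)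
            ext i
            simp [hA]
        _ ≤ _ := by
            apply Finset.sum_le_sum
            intro i _
            have := S.cost_gg_le f hf w hw0 hw lam hlam i
            linarith
    have a4 : ∑ i ∈ A, 2 * ∑ x, w i x / lam x = 2 * ∑ x, WW w A x / lam x := by
      rw [← Finset.mul_sum, Finset.sum_comm]
      congr 1
      apply Finset.sum_congr rfl
      intro x _
      unfold WW
      rw [Finset.sum_div]
    have a5 : ∑ x, WW w A x / lam x ≤ TT w A := by
      unfold TT
      apply Finset.sum_le_sum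
      intro x _
      rw [div_le_iff₀ (hlam x)]
      have h1 : √(WW w A x) * √(WW w A x) = WW w A x := Real.mul_self_sqrt (hWn x)
      have h2 := Real.sqrt_nonneg (WW w A x)
      rw [hlamdef]
      simp only
      nlinarith
    rw [a1, a2]
    linarith
  refine step3.trans ?_
  rw [← avgS_const (univ : Finset ι) (TT w A + η * (Fintype.card X : ℝ) / 2)]
  exact avgS_mono step4

theorem sum_JJ_mu (f : X → ℝ) (hf : ∀ x, f x = 0 ∨ f x = 1) (w : ι → X → ℝ)
    (hw0 : ∀ i x, 0 ≤ w i x)
    (hw : ∀ i x, S.up i x = false → f x = 1 → f (S.fl i x) = 0 → 1 ≤ w i x + w i (S.fl i x))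
    (π : List ι) (hπ : π.Nodup) :
    ∑ x, JJ (S.mu π f x) ≤ TT w π.toFinset := by
  apply le_of_forall_pos_le_add
  intro ε hε
  have hc : (0:ℝ) < Fintype.card X + 1 := by positivity
  have h1 := S.sum_JJ_mu_eta f hf w hw0 hw π hπ (ε / (Fintype.card X + 1)) (by positivity)
  have h2 : ε / (Fintype.card X + 1) * (Fintype.card X : ℝ) / 2 ≤ ε := by
    rw [div_mul_eq_mul_div, div_div, div_le_iff₀ (by positivity)]
    nlinarith
  linarith

/-- the threshold of the averaged function -/
noncomputable def GG (π : List ι) (f : X → ℝ) (x : X) : ℝ := if 1 / 2 < S.mu π f x then 1 else 0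

omit [Fintype X] in
lemma GG_01 (π : List ι) (f : X → ℝ) (x : X) : S.GG π f x = 0 ∨ S.GG π f x = 1 := by
  unfold GG
  split_ifs <;> simp

omit [Fintype X] in
lemma GG_mono (π : List ι) (hπ : π.Nodup) (f : X → ℝ) {i : ι} (hi : i ∈ π) :
    S.MonI i (S.GG π f) := by
  intro x hx
  have := S.mu_mono π hπ f hi x hx
  unfold GG
  split_ifs with h1 h2 h2
  · exact le_rfl
  · exact absurd (lt_of_lt_of_le h1 this) h2
  · norm_num
  · exact le_rfl

theorem avg_dist_GG (f : X → ℝ) (hf : ∀ x, f x = 0 ∨ f x = 1) (w : ι → X → ℝ)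
    (hw0 : ∀ i x, 0 ≤ w i x)
    (hw : ∀ i x, S.up i x = false → f x = 1 → f (S.fl i x) = 0 → 1 ≤ w i x + w i (S.fl i x))
    (π : List ι) (hπ : π.Nodup) :
    avgS univ (fun T => ∑ x, |S.srtT π T f x - S.GG π f x|) ≤ 2 * TT w π.toFinset := by
  rw [avgS_sum]
  have key : ∀ x, avgS univ (fun T => |S.srtT π T f x - S.GG π f x|) ≤ 2 * JJ (S.mu π f x) := by
    intro x
    have hm0 : 0 ≤ S.mu π f x := by
      unfold mu
      apply avgS_nonneg
      intro T
      rcases S.srtT_01 π T f hf x with h | h <;> rw [h]
      norm_num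
    have hm1 : S.mu π f x ≤ 1 := by
      unfold mu
      rw [← avgS_const (univ : Finset ι) (1:ℝ)]
      apply avgS_mono
      intro T
      rcases S.srtT_01 π T f hf x with h | h <;> rw [h]
      norm_num
    by_cases hG : 1 / 2 < S.mu π f x
    · have e1 : S.GG π f x = 1 := by unfold GG; rw [if_pos hG]
      have e2 : (fun T => |S.srtT π T f x - S.GG π f x|) = fun T => 1 - S.srtT π T f x := by
        funext T
        rw [e1]
        rcases S.srtT_01 π T f hf x with h | h <;> rw [h] <;> norm_num
      rw [e2, avgS_sub, avgS_const]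
      have e3 : avgS univ (fun T => S.srtT π T f x) = S.mu π f x := rfl
      rw [e3]
      unfold JJ
      nlinarith
    · have e1 : S.GG π f x = 0 := by unfold GG; rw [if_neg hG]
      have e2 : (fun T => |S.srtT π T f x - S.GG π f x|) = fun T => S.srtT π T f x := by
        funext T
        rw [e1]
        rcases S.srtT_01 π T f hf x with h | h <;> rw [h] <;> norm_num
      rw [e2]
      have e3 : avgS univ (fun T => S.srtT π T f x) = S.mu π f x := rfl
      rw [e3]
      unfold JJ
      rw [not_lt] at hG
      nlinarith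
  calc ∑ x, avgS univ (fun T => |S.srtT π T f x - S.GG π f x|) ≤ ∑ x, 2 * JJ (S.mu π f x) :=
        Finset.sum_le_sum (fun x _ => key x)
    _ = 2 * ∑ x, JJ (S.mu π f x) := by rw [Finset.mul_sum]
    _ ≤ _ := by
        have := S.sum_JJ_mu f hf w hw0 hw π hπ
        linarith

end Sys

end CT
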